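import Pool.Agent.MP_f00251_lc.Skel
import Pool.Agent.MP_f00251_lc.Iface3
import Pool.Agent.MP_f00251_lc.Src.Graph
import Pool.Agent.MP_f00251_lc.Mem.Verifier
import Pool.Agent.MP_74c440_lc.Gen4
import Pool.Agent.MP_f00251_lc.Defs2
import Pool.Agent.MP_f00251_lc.Iface2

-- ======== part 0: formerly Pool.Agent.MP_f00251_lc.Core
section MrgPart0

/-!
The core reduction from independent sets to optimal sorting sequences.
-/

set_option autoImplicit false

namespace Pool.Agent.MP_f00251_lc

open Function Equiv Finset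

theorem V_le_sum₂ {C ι κ : Type} [DecidableEq C] (ok : Multiset C → Prop) (A : Multiset C)
    (I : Finset ι) (K : Finset κ) (f : ι → Multiset C → Prop) (g : κ → Multiset C → Prop)
    (h : ∀ l : List C, (l : Multiset C) = A → Chain ok 0 l → (∀ k ∈ K, ¬ Chain (g k) 0 l) →
      ∃ i ∈ I, Chain (f i) 0 l) :
    V ok 0 A ≤ ∑ i ∈ I, V (f i) 0 A + ∑ k ∈ K, V (g k) 0 A := by
  have := V_le_sum ok A (I.disjSum K) (Sum.elim f g) (fun l h1 h2 => by
    by_cases hc : ∀ k ∈ K, ¬ Chain (g k) 0 l
    · obtain ⟨i, hi, h3⟩ := h l h1 h2 hc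
      exact ⟨.inl i, by simpa using hi, h3⟩
    · push Not at hc
      obtain ⟨k, hk, h3⟩ := hc
      exact ⟨.inr k, by simpa using hk, h3⟩)
  simpa [sum_disjSum] using this

namespace Gr

variable {G : Gr}

/-- The choice given by a set of vertices. -/
def ch (X : Finset ℕ) (x : ℕ) : Bool := decide (x ∈ X)

open Classical in
variable (G) in
/-- The admissible sets of vertices. -/
noncomputable def adm (θ : Bool) : Finset (Finset ℕ) :=
  (range G.n).powerset.filter (fun X => G.valid θ (ch X))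

variable (G) in
/-- The number of feasible words which miss a window, counted with multiplicity. -/
noncomputable def err (θ : Bool) (p r : ℕ) : ℕ :=
  ∑ j ∈ range G.J, V (fun t => G.fe θ t ∧ ¬ G.win θ j t) 0 (G.M p r)

theorem length_Xl : G.Xl.length ≤ 2 * (G.allcr false).length := by
  unfold Xl
  induction G.allcr false with
  | nil => simp
  | cons c l ih =>
    have : c.1.ml ≤ 2 := by cases c.1 <;> simp [Lt.ml]
    simp only [List.flatMap_cons, List.length_append, List.length_replicate, List.length_cons]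
    omega

theorem length_ws : G.ws.length = 3 * G.n + 2 * G.J + 2 := by
  simp [ws, core, ys]; omega

variable (hG : GoodG G.n G.E)
include hG

theorem st_congr {a a' : ℕ → Bool} (h : ∀ x < G.n, a x = a' x) {l : Lt} (hl : G.Val l) :
    G.st a l = G.st a' l := by
  cases l with
  | eta x v => simp only [st, h x hl]
  | hh x v => simp only [st, h x hl]
  | alt k g v => simp only [st, h _ (xv_lt hG (k := k) hl.1)]
  | _ => rfl

theorem valid_iff {θ : Bool} {a : ℕ → Bool} :
    G.valid θ a ↔ ∀ c ∈ G.E, Ord θ (a c.1) (!a c.2) := by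
  have hq := G.q_eq
  constructor
  · intro h c hc
    obtain ⟨i, hi, rfl⟩ := List.getElem_of_mem hc
    have hi' : i < G.e := hi
    have e : (4 * i + 1) / 4 = i := by omega
    have := h (4 * i + 1) (by omega) ((has_E (by omega)).2 (by omega))
      ((has_E (by omega)).2 (by omega))
    simpa [xv, e, hi', hi] using this
  · intro h g _ h1 h2
    have h3 := (has_both h1 h2).1
    simpa [xv, h3] using h _ (edge_mem hG h3)

theorem adm_false : G.adm false = IS G.n G.E := by
  ext X
  simp only [adm, IS, mem_filter, valid_iff hG, and_congr_right_iff]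
  refine fun _ => forall₂_congr (fun c _ => ?_)
  by_cases h1 : c.1 ∈ X <;> by_cases h2 : c.2 ∈ X <;> simp [Ord, ch, h1, h2]

theorem adm_true : G.adm true = {∅} := by
  ext X
  simp only [adm, mem_filter, valid_iff hG, mem_singleton, mem_powerset]
  constructor
  · rintro ⟨h1, h2⟩
    rw [eq_empty_iff_forall_notMem]
    intro x hx
    obtain ⟨c, hc, e⟩ := hG.cov x (mem_range.1 (h1 hx))
    have := h2 c hc
    simp [Ord, ch] at this
    rcases e with rfl | rfl <;> tauto
  · rintro rfl
    simp [Ord, ch]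

theorem lower (θ : Bool) (p r : ℕ) :
    ∑ X ∈ G.adm θ, V (G.Can θ (ch X)) 0 (G.M p r) ≤ V (G.fe θ) 0 (G.M p r) := by
  refine sum_le_V _ _ _ _ (fun X _ l _ h l' hl' => (h l' hl').1) (fun X hX Y hY l hl h1 h2 => ?_)
  obtain ⟨l', a1, a2⟩ := show_state hG hl
  have b1 := a2 _ (by simpa using (h1 l' a1).2)
  have b2 := a2 _ (by simpa using (h2 l' a1).2)
  simp only [adm, mem_filter, mem_powerset] at hX hY
  ext x
  by_cases hx : x < G.n
  · simpa [ch] using (b1 x hx).symm.trans (b2 x hx)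
  · exact ⟨fun h => absurd (mem_range.1 (hX.1 h)) hx, fun h => absurd (mem_range.1 (hY.1 h)) hx⟩

theorem upper (θ : Bool) (p r : ℕ) (ok : Multiset CL → Prop) (B : Finset ℕ → Prop)
    [DecidablePred B] (h : ∀ X t, (∀ x < G.n, Cl.cr (.eta x true) ∈ t ↔ x ∈ X) → ok t → B X) :
    V (fun t => G.fe θ t ∧ ok t) 0 (G.M p r) ≤
      ∑ X ∈ (G.adm θ).filter B, V (G.Can θ (ch X)) 0 (G.M p r) + G.err θ p r := by
  refine V_le_sum₂ _ _ _ _ _ _ (fun l hl h1 h2 => ?_)
  obtain ⟨a, a1, a2⟩ := cover hG (θ := θ) hl (fun j hj => by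
    by_contra hc
    push Not at hc
    exact h2 j (mem_range.2 hj) (fun l' hl' => ⟨(h1 l' hl').1, by simpa using hc l' hl'⟩))
  have e : ∀ x < G.n, a x = ch ((range G.n).filter (fun x => a x = true)) x := fun x hx => by
    simp [ch, hx]
  have a3 : ∀ l', l' <:+ l → G.Reg (ch ((range G.n).filter (fun x => a x = true))) l' :=
    fun l' hl' => (a2 l' hl').imp (fun i hi x hx => by rw [← st_congr hG e hx]; exact hi x hx)
  obtain ⟨l', b1, b2⟩ := show_state hG hl
  refine ⟨(range G.n).filter (fun x => a x = true), mem_filter.2 ⟨?_, h _ l' (fun x hx => ?_)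
    (by simpa using (h1 l' b1).2)⟩, fun l' hl' => ⟨(h1 l' hl').1, by simpa using a3 l' hl'⟩⟩
  · simp only [adm, mem_filter, mem_powerset, filter_subset, true_and]
    rw [valid_iff hG] at a1 ⊢
    intro c hc
    rw [← e _ (hG.lt c hc).1, ← e _ (hG.lt c hc).2]
    exact a1 c hc
  · simpa [ch] using b2 _ (a3 l' b1) x hx

theorem spec (θ : Bool) (p r : ℕ) (hpos : 0 < V (G.fe θ) 0 (G.M p r)) :
    IsSP (G.perm p r θ) ∧ (Opt (G.perm p r θ)).Finite ∧
    numOpt (G.perm p r θ) = fac (G.M p r) * V (G.fe θ) 0 (G.M p r) ∧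
    ∀ (ok : List ℤ → Prop) (ok2 : Multiset CL → Prop),
      (∀ t, ∀ γ : List ℤ, (∀ x < G.n, slotOf (pt (expand (G.mult p r) fbm (G.bl θ)) (fbx fbm)
        (((.cr (.eta x true), 0), false), false)) ∈ Brk γ ↔ Cl.cr (.eta x true) ∈ t) →
        (ok γ ↔ ok2 t)) →
      {s | s ∈ Opt (G.perm p r θ) ∧ ∀ γ ∈ List.scanl rev (G.perm p r θ) s, ok γ}.ncard =
        fac (G.M p r) * V (fun t => G.fe θ t ∧ ok2 t) 0 (G.M p r) := by
  have hs : 0 < G.sz := by unfold sz; omega
  have hJ : 0 < G.J := by unfold J; omega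
  obtain ⟨g1, g2, g3⟩ := genome_spec (G.mult p r) fbm (wfm hG θ).nodup (wfm hG θ).mate
    (fun β _ => by
      cases β.1 with
      | lnk w => have : 0 < G.J * (2 * G.sz ^ r) := by positivity
                 simp only [mult]; omega
      | win j => have : 0 < 2 * G.sz ^ p := by positivity
                 simp only [mult]; omega
      | cr l => cases l <;> simp [mult, Lt.ml])
    (List.ne_nil_of_mem (WFM.mem_lnk (w := .m 0) (b := false).2 (by simp))) (G.M p r)
    (fun c => by
      cases c with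
      | lnk w => simp only [count_M_lnk, WFM.mem_lnk, mult]
      | win j => simp only [count_M_win, ← mem_bl_win hG (θ := θ) (b := false), mult, bl]
      | cr l => simp only [count_M_cr, ← mem_bl_cr hG (θ := θ) (b := false), mult, bl]) hpos
  refine ⟨g1, g2, ?_, fun ok ok2 h => g3 ok ok2 (fun t _ γ hγ => h t γ (fun x hx =>
    hγ _ ((mem_bl_cr hG).2 hx) rfl))⟩
  have := g3 (fun _ => True) (fun _ => True) (fun _ _ _ _ => Iff.rfl)
  simp only [implies_true, and_true, Set.setOf_mem_eq] at this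
  exact this

end Gr

theorem div_eq {F Z w e1 e2 W1 W2 : ℕ} (hF : 0 < F) (hw : 0 < w) (h1 : Z * w ≤ W1)
    (h2 : W1 ≤ Z * w + e1) (h3 : w ≤ W2) (h4 : W2 ≤ w + e2) (h5 : 4 * e1 ≤ w)
    (h6 : 2 * Z * e2 ≤ w) : Z = (2 * (F * W1) + F * W2) / (2 * (F * W2)) := by
  rw [show 2 * (F * W1) + F * W2 = F * (2 * W1 + W2) by ring,
    show 2 * (F * W2) = F * (2 * W2) by ring, Nat.mul_div_mul_left _ _ hF]
  symm
  rw [Nat.div_eq_iff (by omega)]
  have a1 : Z * W2 ≤ Z * (w + e2) := Nat.mul_le_mul_left _ h4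
  have a2 : Z * w ≤ Z * W2 := Nat.mul_le_mul_left _ h3
  constructor
  · nlinarith
  · have : 2 * W1 + W2 + 1 ≤ Z * (2 * W2) + 2 * W2 := by nlinarith
    omega

theorem core_of (hn : NumStmt) (hp : PolyStmt) (hi : IsoStmt) (hs : SkelStmt) : CoreStmt := by
  classical
  obtain ⟨p, r, hn⟩ := hn
  refine ⟨_, _, (hp p r).1, (hp p r).2, fun U E hG0 => ?_⟩
  obtain ⟨G, hGn, hGE, hGG⟩ : ∃ G : Gr, G.n = U.length ∧ G.E = E ∧ G = ⟨U.length, E⟩ :=
    ⟨_, rfl, rfl, rfl⟩
  simp only [← hGG]
  rw [← hGn, ← hGE] at hG0 ⊢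
  clear hGG hGn hGE
  have hG := hG0
  obtain ⟨w, hw⟩ : ∃ w, w = V (G.Can false (fun _ => false)) 0 (G.M p r) := ⟨_, rfl⟩
  have v0 : G.valid false (fun _ => false) := fun _ _ _ _ => Or.inl ⟨rfl, rfl⟩
  have hsum : ∀ θ, ∀ I ⊆ G.adm θ, ∑ X ∈ I, V (G.Can θ (Gr.ch X)) 0 (G.M p r) = I.card * w := by
    intro θ I hI
    rw [← smul_eq_mul, ← sum_const]
    refine sum_congr rfl (fun X hX => ?_)
    have := (mem_filter.1 (hI hX)).2
    rw [hw]
    exact le_antisymm (hi G hG p r _ _ _ _ this v0) (hi G hG p r _ _ _ _ v0 this)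
  have hl := G.length_ws
  have hX := G.length_Xl
  have hsz : G.sz = G.ws.length + 2 * (G.allcr false).length + 6 := rfl
  have hsk := hs G hG p r
  rw [← hw] at hsk
  have hw0 : 0 < w := by
    rcases Nat.eq_zero_or_pos w with h | h
    · rw [h, mul_zero] at hsk
      exact absurd hsk (not_le.2 (by positivity))
    · exact h
  have herr : ∀ θ, 2 ^ G.sz * G.err θ p r ≤ w := by
    intro θ
    have h1 := hn CL G.Lks G.J Cl.win G.Xl G.sz (G.fe θ) (G.good θ) (G.win θ) (by omega)
      (by rw [Gr.card_Lks]; omega) (by rw [Gr.card_Lks]; omega) (by omega)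
      (by rw [Multiset.coe_card]; omega)
      (fun j _ => ⟨by simp [Gr.mem_Lks], by
        rw [← Multiset.count_eq_zero, Gr.count_Xl]⟩)
      (fun c hc h => by
        obtain ⟨w, -, rfl⟩ := Gr.mem_Lks.1 h
        rw [← Multiset.count_ne_zero, Gr.count_Xl] at hc
        exact hc rfl)
      (fun i _ j _ e => by simpa using e) (Gr.good_zero θ) (Gr.good_M hG θ p r)
      (fun t => Gr.kill hG) (fun t i => Gr.glink) (fun t j => Gr.gq)
      (fun t i hi j hj => Gr.win_inj hG hi hj)
    have h2 : ∀ j ∈ range G.J,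
        G.sz * 2 ^ G.sz * V (fun t => G.fe θ t ∧ ¬ G.win θ j t) 0 (G.M p r) ≤ w := by
      intro j hj
      have := (h1 j (mem_range.1 hj)).trans hsk
      rw [mul_right_comm, mul_comm _ w] at this
      exact Nat.le_of_mul_le_mul_right this (by positivity)
    have h3 := sum_le_sum h2
    rw [← mul_sum, sum_const, card_range, smul_eq_mul, mul_assoc] at h3
    exact Nat.le_of_mul_le_mul_left (h3.trans (Nat.mul_le_mul_right _ (by omega))) (by omega)
  have lo : ∀ θ, (G.adm θ).card * w ≤ V (G.fe θ) 0 (G.M p r) := fun θ => by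
    rw [← hsum θ _ Subset.rfl]; exact Gr.lower hG θ p r
  have up : ∀ θ, V (G.fe θ) 0 (G.M p r) ≤ (G.adm θ).card * w + G.err θ p r := fun θ => by
    have := Gr.upper hG θ p r (fun _ => True) (fun _ => True) (fun _ _ _ _ => trivial)
    rw [hsum θ _ (filter_subset _ _)] at this
    simpa using this
  have lo0 := lo false
  have lo1 := lo true
  have up0 := up false
  have up1 := up true
  rw [Gr.adm_false hG] at lo0 up0
  rw [Gr.adm_true hG, card_singleton, one_mul] at lo1 up1
  have hZ1 : 1 ≤ (IS G.n G.E).card := card_pos.2 ⟨∅, by simp [IS]⟩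
  have hZ2 : (IS G.n G.E).card ≤ 2 ^ G.n :=
    (card_filter_le _ _).trans (by rw [card_powerset, card_range])
  have hZw : w ≤ (IS G.n G.E).card * w := Nat.le_mul_of_pos_left _ hZ1
  have he16 : 16 * G.err false p r ≤ w := le_trans (Nat.mul_le_mul_right _
    (show 2 ^ 4 ≤ 2 ^ G.sz from Nat.pow_le_pow_right (by omega) (by omega))) (herr false)
  have heZ : 2 * (IS G.n G.E).card * G.err true p r ≤ w := le_trans (Nat.mul_le_mul_right _ (by
    have : 2 ^ (G.n + 1) ≤ 2 ^ G.sz := Nat.pow_le_pow_right (by omega) (by omega)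
    rw [pow_succ] at this
    omega)) (herr true)
  obtain ⟨a1, a2, a3, a4⟩ := Gr.spec hG false p r (by omega)
  obtain ⟨b1, -, b3, -⟩ := Gr.spec hG true p r (by omega)
  refine ⟨a1, b1, ?_, a2, ?_, fun A hA => ?_⟩
  · rw [a3, b3]
    exact div_eq (fac_pos _) hw0 lo0 up0 lo1 up1 (by omega) heZ
  · rw [a3]
    exact Nat.mul_pos (fac_pos _) (by omega)
  · rw [a3, a4 _ (fun t => ¬ A ((List.range G.n).filter
      (fun x => decide (Cl.cr (.eta x true) ∈ t)))) (fun t γ h => by
        unfold Gr.mark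
        rw [List.filter_congr (fun x hx => decide_eq_decide.2 (h x (List.mem_range.1 hx)))]),
      mul_left_comm]
    refine Nat.mul_le_mul_left _ ?_
    have h1 := Gr.upper hG false p r (fun t => ¬ A ((List.range G.n).filter
      (fun x => decide (Cl.cr (.eta x true) ∈ t))))
      (fun X => ¬ A ((List.range G.n).filter (fun i => decide (i ∈ X)))) (fun X t h => by
        rw [List.filter_congr (fun x hx => decide_eq_decide.2 (h x (List.mem_range.1 hx)))]
        exact id)
    rw [hsum false _ (filter_subset _ _), Gr.adm_false hG] at h1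
    have h2 := card_filter_add_card_filter_not (s := IS G.n G.E)
      (fun X => A ((List.range G.n).filter (fun i => decide (i ∈ X))))
    have h3 : 16 * ((IS G.n G.E).filter
        (fun X => ¬ A ((List.range G.n).filter (fun i => decide (i ∈ X))))).card * w ≤
        (IS G.n G.E).card * w := Nat.mul_le_mul_right _ (by omega)
    rw [mul_assoc] at h3
    omega

end Pool.Agent.MP_f00251_lc

end MrgPart0

-- ======== part 1: formerly Pool.Agent.MP_f00251_lc.Iso
section MrgPart1

/-!
The number of scheduled words does not depend on the admissible choice.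
-/

set_option autoImplicit false

namespace Pool.Agent.MP_f00251_lc

open Function Equiv

/-- Exchange of the values on wires. -/
def flw (d : ℕ → Bool) : Wr → Wr
  | .y x v => .y x (xor v (d x))
  | w => w

theorem flw_flw (d : ℕ → Bool) : Involutive (flw d) := by
  intro w; cases w <;> simp [flw]

/-- Exchange of the values on wires, as a permutation. -/
def psi (d : ℕ → Bool) : Perm Wr := (flw_flw d).toPerm

@[simp] theorem psi_y (d : ℕ → Bool) (x : ℕ) (v : Bool) :
    psi d (.y x v) = .y x (xor v (d x)) := rfl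
@[simp] theorem psi_s (d : ℕ → Bool) (x : ℕ) : psi d (.s x) = .s x := rfl
@[simp] theorem psi_a (d : ℕ → Bool) (x : ℕ) : psi d (.a x) = .a x := rfl
@[simp] theorem psi_m (d : ℕ → Bool) (x : ℕ) : psi d (.m x) = .m x := rfl

theorem sIf_psi (d : ℕ → Bool) (b : Bool) (u v : Wr) :
    sIf b (psi d u) (psi d v) * psi d = psi d * sIf b u v := by
  rw [← conj_sIf]; group

theorem cmul {ψ P P' Q Q' : Perm Wr} (h1 : P' * ψ = ψ * P) (h2 : Q' * ψ = ψ * Q) :
    P' * Q' * ψ = ψ * (P * Q) := by
  rw [mul_assoc, h2, ← mul_assoc, h1, mul_assoc]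

/-- The value wires which stay idle. -/
def idl (x0 : ℕ) (v0 : Bool) : Wr → Bool
  | .y x v => !(decide (x = x0 ∧ v = v0))
  | _ => false

namespace Gr

variable (G : Gr)

/-- Exchange of the values on crossings. -/
def fl (d : ℕ → Bool) : Lt → Lt
  | .eta x v => .eta x (xor v (d x))
  | .hh x v => .hh x (xor v (d x))
  | .alt k g v => .alt k g (xor v (d (G.xv k g)))
  | l => l

/-- Exchange of the values on classes. -/
def fc (d : ℕ → Bool) : CL → CL
  | .lnk w => .lnk (psi d w)
  | .win j => .win j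
  | .cr l => .cr (G.fl d l)

variable {G}

theorem fl_fl (d : ℕ → Bool) (l : Lt) : G.fl d (G.fl d l) = l := by
  cases l <;> simp [fl]

theorem fc_fc (d : ℕ → Bool) : Involutive (G.fc d) := by
  intro c
  cases c with
  | lnk w => exact congrArg Cl.lnk (flw_flw d w)
  | win j => rfl
  | cr l => exact congrArg Cl.cr (fl_fl d l)

theorem count_fc (d : ℕ → Bool) (t : Multiset CL) (c : CL) :
    (t.map (G.fc d)).count c = t.count (G.fc d c) := by
  conv_lhs => rw [← fc_fc (G := G) d c]
  exact Multiset.count_map_eq_count' _ _ (fc_fc d).injective _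

theorem val_fl (d : ℕ → Bool) (l : Lt) : G.Val (G.fl d l) ↔ G.Val l := by
  cases l <;> rfl

theorem ml_fl (d : ℕ → Bool) (l : Lt) : (G.fl d l).ml = l.ml := by
  cases l <;> rfl

theorem st_fl (a a' : ℕ → Bool) (l : Lt) :
    G.st a (G.fl (fun x => xor (a x) (a' x)) l) = G.st a' l := by
  have : ∀ v b b' : Bool, (xor v (xor b b') = b) = (v = b') := by decide
  cases l <;> simp only [fl, st, this]

theorem map_M (d : ℕ → Bool) (p r : ℕ) : (G.M p r).map (G.fc d) = G.M p r := by
  ext c
  rw [count_fc]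
  cases c with
  | lnk w => cases w <;> simp [fc, count_M_lnk]
  | win j => rfl
  | cr l => simp only [fc, count_M_cr, val_fl, ml_fl]

theorem filter_idl (x0 : ℕ) (v0 : Bool) : G.ws.filter (fun w => !idl x0 v0 w) =
    G.core ++ if x0 < G.n then [.y x0 v0] else [] := by
  rw [ws, List.filter_append, List.filter_eq_self.2 (fun w hw => by
    simp only [core, List.mem_append, List.mem_map] at hw
    rcases hw with ⟨x, -, rfl⟩ | ⟨x, -, rfl⟩ | ⟨x, -, rfl⟩ <;> rfl)]
  congr 1
  have hnd := G.nodup_ys.filter (fun w => !idl x0 v0 w)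
  have hm : ∀ w, w ∈ G.ys.filter (fun w => !idl x0 v0 w) ↔ x0 < G.n ∧ w = .y x0 v0 := by
    intro w
    simp only [List.mem_filter, mem_ys]
    constructor
    · rintro ⟨⟨x, hx, v, rfl⟩, h⟩
      simp [idl] at h
      exact ⟨h.1 ▸ hx, by rw [h.1, h.2]⟩
    · rintro ⟨hx, rfl⟩
      exact ⟨⟨_, hx, _, rfl⟩, by simp [idl]⟩
  split_ifs with h
  · exact List.perm_singleton.1 ((List.perm_ext_iff_of_nodup hnd (by simp)).2 (by simp [hm, h]))
  · exact List.eq_nil_iff_forall_not_mem.2 (fun w hw => h ((hm w).1 hw).1)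

theorem touch_word {it : It Wr Lt} (h : it ∈ word G.secs G.post) {w : Wr} (hw : it.touch w)
    (x : ℕ) (v : Bool) : w ≠ .y x v := by
  rintro rfl
  cases it with
  | X l u u' =>
    obtain ⟨-, h1, h2, -⟩ := G.mem_crs.1 (mem_word_X.1 h)
    simp only at h1 h2
    simp only [It.touch] at hw
    rw [show u = (G.wr l).1 from congrArg Prod.fst h1, show u' = (G.wr l).2 from
      congrArg Prod.snd h1] at hw
    revert h2 hw
    cases l <;> simp [isL, wr, aC, sv, aP] <;> split_ifs <;> simp
  | Q j s u =>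
    obtain ⟨σ, hσ, -, rfl⟩ := mem_word_Q.1 h
    obtain ⟨j, -, rfl⟩ := mem_secs.1 hσ
    simp only [It.touch, sec, sv, aC] at hw
    split_ifs at hw

theorem fe_map (hG : GoodG G.n G.E) {θ θ' : Bool} {t : Multiset CL} (d : ℕ → Bool) (x0 : ℕ)
    (v0 : Bool) (h1 : ∀ x v, ¬ (x = x0 ∧ v = v0) → pm (od t) (G.Lw θ) (.y x v) = .y x v)
    (h2 : pm (od (t.map (G.fc d))) (G.Lw θ') * psi d = psi d * pm (od t) (G.Lw θ))
    (h : G.fe θ t) : G.fe θ' (t.map (G.fc d)) := by
  have e1 : ∀ l, od (t.map (G.fc d)) l = od t (G.fl d l) := fun l => by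
    rw [od, par, count_fc]; rfl
  have e2 : qp (t.map (G.fc d)) = qp t := by
    funext j; rw [qp, par, count_fc]; rfl
  have h3 : pm (od (t.map (G.fc d))) (G.L0 θ') * psi d = psi d * pm (od t) (G.L0 θ) := by
    rw [pm_L0, pm_L0, mul_assoc, h2, ← mul_assoc, ← mul_assoc, ← sIf_psi, e1]; rfl
  have h4 : ∀ w, idl x0 v0 w = true → pm (od t) (G.L0 θ) w = w := by
    intro w hw
    cases w with
    | y x v =>
      rw [pm_L0, Perm.mul_apply,
        h1 x v (by simpa only [idl, Bool.not_eq_true', decide_eq_false_iff_not] using hw),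
        sIf_fix (fun _ => by simp)]
    | _ => simp [idl] at hw
  have ht : ∀ x0 v0, ∀ it ∈ word G.secs G.post, ∀ w, it.touch w → idl x0 v0 w = false := by
    intro x0 v0 it hit w hw
    cases w with
    | y x v => exact absurd rfl (touch_word hit hw x v)
    | _ => rfl
  rw [fe_iff hG] at h ⊢
  rw [mconn_filter G.nodup_ws (idl x0 v0) h4 (ht _ _), filter_idl] at h
  rw [mconn_filter G.nodup_ws (idl x0 (xor v0 (d x0))) (fun w hw => ?_) (ht _ _), filter_idl, e2]
  · have := mconn_map (T' := TT (t.map (G.fc d))) (odd' := od (t.map (G.fc d))) (psi d)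
      (fun it hit w hw => by
        cases w with
        | y x v => exact absurd rfl (touch_word hit hw x v)
        | _ => rfl)
      (fun l u v hl => by
        have := (G.mem_crs.1 (mem_word_X.1 hl)).2.2.1
        rw [e1]
        revert this
        cases l <;> simp [isL, fl])
      (fun w => by
        rw [TT, par, count_fc, fc, show psi d (psi d w) = w from flw_flw d w]; rfl) h3 h
    convert this using 1
    rw [List.map_append]
    congr 1
    · simp [core, comp_def]
    · split_ifs <;> simp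
  · have e : psi d (psi d w) = w := flw_flw d w
    have := congrArg (· (psi d w)) h3
    simp only [Perm.mul_apply, e] at this
    rw [this, h4, e]
    cases w with
    | y x v =>
      simp only [idl, psi_y, Bool.not_eq_true', decide_eq_false_iff_not] at hw ⊢
      rintro ⟨rfl, rfl⟩
      simp at hw
    | _ => simp [idl] at hw

/-- Outside the block `b`, the crossings have been fully used or not used at all. -/
structure Blk (G : Gr) (a : ℕ → Bool) (i : ℕ) (o : Lt → Bool) : Prop where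
  hi : ∀ l, G.Val l → G.st a l + 4 ≤ 4 * i → o l = l.ml.bodd
  lo : ∀ l, G.Val l → 4 * i < G.st a l → o l = false

theorem Blk.alt {a : ℕ → Bool} {i : ℕ} {o : Lt → Bool} (h : G.Blk a i o) {k v : Bool} {g : ℕ}
    (hg : g < G.q) (ho : G.o o k v g = true) :
    4 * i < G.st a (.alt k g v) + 4 ∧ G.st a (.alt k g v) ≤ 4 * i := by
  rw [Gr.o, Bool.and_eq_true] at ho
  constructor
  · by_contra hc
    have := h.hi (.alt k g v) ⟨hg, ho.1⟩ (by omega)
    simp [ho.2, Lt.ml] at this
  · by_contra hc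
    have := h.lo (.alt k g v) ⟨hg, ho.1⟩ (by omega)
    simp [ho.2] at this

theorem Blk.eh {a : ℕ → Bool} {i : ℕ} {o : Lt → Bool} (h : G.Blk a i o) {x : ℕ} (hx : x < G.n)
    {v : Bool} (hs : ¬ (4 * i < G.st a (.eta x v) + 4 ∧ G.st a (.eta x v) ≤ 4 * i)) :
    o (.hh x v) = o (.eta x v) := by
  by_cases h1 : G.st a (.eta x v) + 4 ≤ 4 * i
  · rw [h.hi (.eta x v) hx h1, h.hi (.hh x v) hx h1]; rfl
  · rw [h.lo (.eta x v) hx (by omega), h.lo (.hh x v) hx (show 4 * i < G.st a (.eta x v) by omega)]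

/-- Normal form at a vertex stage. -/
theorem Blk.vertex {a : ℕ → Bool} {i : ℕ} {o : Lt → Bool} (h : G.Blk a i o) (θ : Bool) {x0 : ℕ}
    (hx : x0 < G.n) {r : Bool} (hi : 4 * i = 4 * (G.e + x0) + 4 + if r then G.q else 0) :
    pm o (G.Lw θ) = sIf (o (.hh x0 (xor (a x0) r))) (.s x0) (.y x0 (xor (a x0) r)) *
      (sIf (o (.alt true (4 * (G.e + x0) + 3) (xor (a x0) r))) (.a (4 * (G.e + x0) + 3))
          (.y x0 (xor (a x0) r)) *
        sIf (o (.alt false (4 * (G.e + x0) + 1) (xor (a x0) r))) (.a (4 * (G.e + x0) + 1))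
          (.s x0)) * sIf (o (.eta x0 (xor (a x0) r))) (.s x0) (.y x0 (xor (a x0) r)) := by
  have hq := G.q_eq
  refine nf3 hx _ (fun x hx' v hv => h.eh hx' (fun hs => ?_)) (fun k v g hg ho => ?_)
  · simp only [st] at hs
    have : x = x0 ∧ (v = a x ↔ r = false) := by
      cases r <;> split_ifs at hs hi <;> simp [*] <;> omega
    obtain ⟨rfl, e⟩ := this
    revert e hv
    cases v <;> cases a x <;> cases r <;> simp
  · have hs := h.alt hg ho
    have ho := G.has_odd (o_has ho)
    simp only [st] at hs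
    have : g / 4 = G.e + x0 ∧ (v = a (G.xv k g) ↔ r = false) := by
      cases r <;> split_ifs at hs hi <;> simp [*] <;> omega
    refine ⟨?_, this.1⟩
    have e := this.2
    rw [xv_V (by omega), this.1, Nat.add_sub_cancel_left] at e
    revert e
    cases v <;> cases a x0 <;> cases r <;> simp

/-- The left word is regular at the other stages. -/
theorem Blk.reg (hG : GoodG G.n G.E) {a : ℕ → Bool} {i : ℕ} {o : Lt → Bool} (h : G.Blk a i o)
    (hi : ∀ x < G.n, ∀ r : Bool, 4 * i ≠ 4 * (G.e + x) + 4 + if r then G.q else 0) :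
    G.Reg1 o ∧ ∀ k v, ∀ g < G.q, G.o o k v g = true → g / 4 < G.e := by
  have hq := G.q_eq
  have h1 : ∀ k v, ∀ g < G.q, G.o o k v g = true → g / 4 < G.e := by
    intro k v g hg ho
    have hs := h.alt hg ho
    have ho := G.has_odd (o_has ho)
    by_contra hc
    have a1 := hi (g / 4 - G.e) (by omega) false
    have a2 := hi (g / 4 - G.e) (by omega) true
    simp only [st, hc, and_false, if_false, if_true, Bool.false_eq_true] at hs a1 a2
    split_ifs at hs <;> omega
  refine ⟨⟨fun x hx v => h.eh hx (fun hs => ?_), fun k v g hg ho => ?_⟩, h1⟩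
  · have a1 := hi x hx false
    have a2 := hi x hx true
    simp only [st, if_false, if_true, Bool.false_eq_true] at hs a1 a2
    split_ifs at hs <;> omega
  · have hs := h.alt hg ho
    have h2 := h1 k v g hg ho
    have h3 := (has_E h2).1 (o_has ho)
    have hx := xv_lt hG (k := k) hg
    clear hi h1 ho
    cases k
    · refine h.lo (.eta _ v) hx ?_
      simp only [st, Bool.false_eq_true, false_and, if_false] at hs ⊢
      split_ifs at hs ⊢ <;> omega
    · refine (h.hi (.eta _ v) hx ?_).trans (by simp [Lt.ml])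
      simp only [st, h2, and_self, if_true] at hs ⊢
      split_ifs at hs ⊢ <;> omega

/-- Normal form at an edge stage. -/
theorem Blk.edge (hG : GoodG G.n G.E) {a : ℕ → Bool} {i : ℕ} {o : Lt → Bool} (h : G.Blk a i o)
    {θ : Bool} (ha : G.valid θ a)
    (hi : ∀ x < G.n, ∀ r : Bool, 4 * i ≠ 4 * (G.e + x) + 4 + if r then G.q else 0)
    {g0 c : ℕ} (hg : g0 < G.q) (hc : 4 * i = g0 + 3 + c)
    (hc' : c = 0 ∨ c = G.q ∨ c = 2 * G.q) :
    pm o (G.Lw θ) =
      sIf (G.o o false (xor (a (G.xv false g0)) (decide (c ≠ 0))) g0) (.a g0) (.s (G.xv false g0)) *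
        sIf (G.o o true (xor (a (G.xv true g0)) (decide (c ≠ G.q))) g0) (.a g0)
          (.s (G.xv true g0)) := by
  have hq := G.q_eq
  obtain ⟨h1, h2⟩ := h.reg hG hi
  have key : ∀ k v, ∀ g < G.q, G.o o k v g = true → g = g0 ∧
      c = (if k then G.q else 0) + if v = a (G.xv k g) then 0 else G.q := by
    intro k v g hg' ho
    have hs := h.alt hg' ho
    have h3 := h2 k v g hg' ho
    have h4 := (has_E h3).1 (o_has ho)
    clear hi h2 ho
    simp only [st, h3, and_true] at hs
    split_ifs at hs ⊢ <;> omega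
  rw [h1.nf1 hG θ hg (fun g hg' hne k v => by
    by_contra hc
    exact hne (key k v g hg' (by simpa using hc)).1)]
  refine EE_ord (fun k => xor (a (G.xv k g0)) (decide (c ≠ if k then G.q else 0)))
    (fun k => ?_) (fun b1 b2 => ?_)
  · by_contra hc
    have := (key k _ g0 hg (by simpa only [Bool.not_eq_false] using hc)).2
    by_cases e : c = if k then G.q else 0
    · simp [← e] at this
      omega
    · simp [e] at this
  · have c1 := (key _ _ g0 hg b1).2
    have c2 := (key _ _ g0 hg b2).2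
    have e : c = G.q := by
      simp only [if_true, Bool.false_eq_true, if_false] at c1 c2
      generalize (if _ = a (G.xv true g0) then 0 else G.q) = z at c1
      split_ifs at c2 <;> omega
    have := ha g0 hg (o_has b2) (o_has b1)
    simpa [e, show G.q ≠ 0 by omega] using this

theorem blk_of_reg {a : ℕ → Bool} {t : Multiset CL} (h : G.Reg a t) : ∃ i, G.Blk a i (od t) :=
  h.imp (fun _ h => ⟨fun l hl h1 => by rw [od, par, (h l hl).1 h1],
    fun l hl h1 => by rw [od, par, (h l hl).2 h1]; rfl⟩)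

theorem can_map (hG : GoodG G.n G.E) {θ θ' : Bool} {a a' : ℕ → Bool} (ha : G.valid θ a)
    (ha' : G.valid θ' a') {t : Multiset CL} (h : G.Can θ a t) :
    G.Can θ' a' (t.map (G.fc (fun x => xor (a x) (a' x)))) := by
  refine ⟨?_, h.2.imp (fun i hi l hl => ?_)⟩
  swap
  · rw [count_fc, fc, ← st_fl a a', ← ml_fl (G := G) (fun x => xor (a x) (a' x)) l]
    exact hi _ ((val_fl _ _).2 hl)
  obtain ⟨i, B⟩ := blk_of_reg h.2
  have e1 : ∀ l, od (t.map (G.fc (fun x => xor (a x) (a' x)))) l =
      od t (G.fl (fun x => xor (a x) (a' x)) l) := fun l => by rw [od, par, count_fc]; rfl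
  have B' : G.Blk a' i (od (t.map (G.fc (fun x => xor (a x) (a' x))))) :=
    ⟨fun l hl h1 => by rw [e1, B.hi _ ((val_fl _ _).2 hl) (by rwa [st_fl]), ml_fl],
      fun l hl h1 => by rw [e1, B.lo _ ((val_fl _ _).2 hl) (by rwa [st_fl])]⟩
  have x3 : ∀ b b' r : Bool, xor (xor b' r) (xor b b') = xor b r := by decide
  have x4 : ∀ b b' r : Bool, xor (xor b r) (xor b b') = xor b' r := by decide
  by_cases hv : ∃ x < G.n, ∃ r : Bool, 4 * i = 4 * (G.e + x) + 4 + if r then G.q else 0
  · obtain ⟨x0, hx, r, hi⟩ := hv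
    have hq := G.q_eq
    have e2 : ∀ k, G.xv k (4 * (G.e + x0) + 3) = x0 := fun k => by rw [xv_V (by omega)]; omega
    have e3 : ∀ k, G.xv k (4 * (G.e + x0) + 1) = x0 := fun k => by rw [xv_V (by omega)]; omega
    refine fe_map hG _ x0 (xor (a x0) r) (fun x v hne => ?_) ?_ h.1
    · rw [B.vertex θ hx hi]
      have : Wr.y x v ≠ .y x0 (xor (a x0) r) := by simpa using hne
      simp only [Perm.mul_apply]
      rw [sIf_fix (z := .y x v) (fun _ => ⟨by simp, this⟩),
        sIf_fix (z := .y x v) (fun _ => ⟨by simp, by simp⟩),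
        sIf_fix (z := .y x v) (fun _ => ⟨by simp, this⟩),
        sIf_fix (z := .y x v) (fun _ => ⟨by simp, this⟩)]
    · rw [B.vertex θ hx hi, B'.vertex θ' hx hi]
      simp only [e1, fl, e2, e3, x3]
      refine cmul (cmul ?_ (cmul ?_ ?_)) ?_ <;>
        simp only [← sIf_psi, psi_s, psi_y, psi_a, x4]
  · push Not at hv
    have hy : ∀ b g x b' g' x' z v, (sIf b (.a g) (.s x) * sIf b' (.a g') (.s x')) (.y z v) =
        .y z v := fun b g x b' g' x' z v => by
      rw [Perm.mul_apply, sIf_fix (z := .y z v) (fun _ => by simp), sIf_fix (fun _ => by simp)]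
    by_cases hc : ∃ g0 < G.q, ∃ c, 4 * i = g0 + 3 + c ∧ (c = 0 ∨ c = G.q ∨ c = 2 * G.q)
    · obtain ⟨g0, hg, c, h1, h2⟩ := hc
      refine fe_map hG _ 0 false (fun x v _ => by rw [B.edge hG ha hv hg h1 h2, hy]) ?_ h.1
      rw [B.edge hG ha hv hg h1 h2, B'.edge hG ha' hv hg h1 h2]
      simp only [o, e1, fl, x3]
      refine cmul ?_ ?_ <;> simp only [← sIf_psi, psi_s, psi_a]
    · have n0 : ∀ {a o}, G.Blk a i o → ∀ θ, pm o (G.Lw θ) = 1 := fun {a o} B θ => by
        obtain ⟨h1, h2⟩ := B.reg hG hv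
        refine h1.nf0 hG θ (fun g hg k v => ?_)
        by_contra ho
        rw [Bool.not_eq_false] at ho
        have hs := B.alt hg ho
        have h3 := h2 k v g hg ho
        have h4 := (has_E h3).1 (o_has ho)
        have hq := G.q_eq
        refine hc ⟨g, hg, 4 * i - 3 - g, ?_⟩
        clear hc hv h2 ho
        simp only [st] at hs
        split_ifs at hs <;> omega
      exact fe_map hG _ 0 false (fun x v _ => by rw [n0 B]; rfl) (by rw [n0 B, n0 B']; simp) h.1

end Gr

theorem isoStmt : IsoStmt := by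
  intro G hG p r θ θ' a a' ha ha'
  have := V_map (G.Can θ a) (G.Can θ' a') (G.M p r) _ (Gr.fc_fc (fun x => xor (a x) (a' x))).injective
    (fun t _ h => Gr.can_map hG ha ha' h)
  rwa [Gr.map_M] at this

end Pool.Agent.MP_f00251_lc

end MrgPart1

-- ======== part 2: formerly Pool.Agent.MP_f00251_lc.Src.Mach
section MrgPart2

/-!
The groups of options that describe the accepting runs of a simple machine.
-/

set_option autoImplicit false

namespace Pool.Agent.MP_f00251_lc.Src

open Pool.Agent.PolyT Pool.Agent.H82 N487b59b3 Function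

/-- The state at time `t`. -/
def vS (t : ℕ) : ℕ := var t 0 0

/-- The bit `j` of the witness. -/
def vW (j : ℕ) : ℕ := var 0 j 1

/-- The cell `i` of the stack with number `c` at time `t`. -/
def vC (t i c : ℕ) : ℕ := var t i (c + 3)

/-- The name of the group that asks for acceptance. -/
def vA : ℕ := var 0 0 2

@[simp] theorem vS_inj {t t' : ℕ} : vS t = vS t' ↔ t = t' := by simp [vS, var_inj]
@[simp] theorem vW_inj {t t' : ℕ} : vW t = vW t' ↔ t = t' := by simp [vW, var_inj]
@[simp] theorem vC_inj {t i c t' i' c' : ℕ} :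
    vC t i c = vC t' i' c' ↔ t = t' ∧ i = i' ∧ c = c' := by simp [vC, var_inj]
@[simp] theorem vS_vW {t j : ℕ} : vS t ≠ vW j := by simp [vS, vW, var_inj]
@[simp] theorem vW_vS {t j : ℕ} : vW j ≠ vS t := vS_vW.symm
@[simp] theorem vS_vC {t s i c : ℕ} : vS t ≠ vC s i c := by simp [vS, vC, var_inj]
@[simp] theorem vC_vS {t s i c : ℕ} : vC s i c ≠ vS t := vS_vC.symm
@[simp] theorem vW_vC {t s i c : ℕ} : vW t ≠ vC s i c := by simp [vW, vC, var_inj]
@[simp] theorem vC_vW {t s i c : ℕ} : vC s i c ≠ vW t := vW_vC.symm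
@[simp] theorem vA_vS {t : ℕ} : vA ≠ vS t := by simp [vS, vA, var_inj]
@[simp] theorem vS_vA {t : ℕ} : vS t ≠ vA := vA_vS.symm
@[simp] theorem vA_vW {t : ℕ} : vA ≠ vW t := by simp [vW, vA, var_inj]
@[simp] theorem vW_vA {t : ℕ} : vW t ≠ vA := vA_vW.symm
@[simp] theorem vA_vC {s i c : ℕ} : vA ≠ vC s i c := by simp [vC, vA, var_inj]
@[simp] theorem vC_vA {s i c : ℕ} : vC s i c ≠ vA := vA_vC.symm

section poly

variable {α : Type} [N487b59b3 α] {f g h : α → ℕ}

@[fun_prop] theorem p_vS (hf : PolyT.Poly f) : PolyT.Poly fun a => vS (f a) := by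
  unfold vS; fun_prop

@[fun_prop] theorem p_vW (hf : PolyT.Poly f) : PolyT.Poly fun a => vW (f a) := by
  unfold vW; fun_prop

@[fun_prop] theorem p_vC (hf : PolyT.Poly f) (hg : PolyT.Poly g) (hh : PolyT.Poly h) :
    PolyT.Poly fun a => vC (f a) (g a) (h a) := by
  unfold vC; fun_prop

end poly

variable (N : FSM)

/-- The number of a stack. -/
noncomputable def kc (k : N.K) : ℕ := N.cc k none

theorem cc_inj {k k' : N.K} {γ γ' : Option N.G} : N.cc k γ = N.cc k' γ' ↔ k = k' ∧ γ = γ' := by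
  simp [FSM.cc, N.code_inj.eq_iff]

theorem cq_inj {q q' : N.Q} : N.cq q = N.cq q' ↔ q = q' := by
  simp [FSM.cq, N.code_inj.eq_iff]

theorem kc_inj {k k' : N.K} : kc N k = kc N k' ↔ k = k' := by simp [kc, cc_inj]

/-- The code of an input bit. -/
noncomputable def ci (b : Bool) : ℕ := N.cc N.k₀ (some (N.inp b))

/-- Templates of the state options. -/
noncomputable def tS : List (ℕ × ℕ × ℕ × ℕ) :=
  (Finset.univ : Finset (N.Q × Option N.G)).toList.map
    fun p => (N.cq p.1, kc N (N.M.stk p.1), N.cc (N.M.stk p.1) p.2, N.cq (N.M.next p.1 p.2))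

/-- Templates of the cell options. -/
noncomputable def tC : List (ℕ × ℕ × ℕ × ℕ × ℕ × ℕ) :=
  (Finset.univ : Finset (N.Q × N.K × Option N.G)).toList.map
    fun p => (N.cq p.1, kc N p.2.1, N.cc p.2.1 p.2.2, N.dd p.1 p.2.1, N.ee p.1 p.2.1,
      N.cc p.2.1 ((N.M.op p.1).getD none))

/-- The numbers of the stacks. -/
noncomputable def tK : List ℕ := (Finset.univ : Finset N.K).toList.map (kc N)

/-- All options, for the input `u` followed by `m.length` free bits and `l.length` steps. -/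
noncomputable def ops (u : List Bool) (m l : List ℕ) : List Op :=
  (vS 0, [(vS 0, N.cq N.q₀)]) ::
  (vA, [(vC l.length 0 (kc N N.k₁), N.cc N.k₁ (some (N.out true)))]) ::
  ((idx m).flatMap (fun j =>
      [(vW j, [(vW j, 0), (vC 0 (u.length + j) (kc N N.k₀), ci N false)]),
        (vW j, [(vW j, 1), (vC 0 (u.length + j) (kc N N.k₀), ci N true)])]) ++
    (idx (0 :: l)).flatMap (fun i =>
      ((tK N).filter fun c =>
        !(eqB c (kc N N.k₀) && !ltB i u.length && ltB i (u.length + m.length))).map fun c =>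
        (vC 0 i c, [(vC 0 i c, bif eqB c (kc N N.k₀) && ltB i u.length then
          (bif u.getD i false then ci N true else ci N false) else c)])) ++
    (idx l).flatMap (fun t =>
      (tS N).map (fun p =>
        (vS (t + 1), [(vS t, p.1), (vC t 0 p.2.1, p.2.2.1), (vS (t + 1), p.2.2.2)])) ++
      (idx (l.drop t)).flatMap fun i => (tC N).map fun p =>
        (vC (t + 1) i p.2.1, [(vS t, p.1), (vC t (i + p.2.2.2.1 - p.2.2.2.2.1) p.2.1, p.2.2.1),
          (vC (t + 1) i p.2.1, bif ltB i p.2.2.2.2.1 then p.2.2.2.2.2 else p.2.2.1)])))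

theorem p_ops {α : Type} [N487b59b3 α] {u : α → List Bool} {m l : α → List ℕ}
    (hu : PolyT.Poly u) (hm : PolyT.Poly m) (hl : PolyT.Poly l) :
    PolyT.Poly fun a => ops N (u a) (m a) (l a) := by
  unfold ops
  fun_prop

/-- The content of a cell after one step. -/
def nx (q : N.Q) (k : N.K) (i : ℕ) (γ : Option N.G) : Option N.G :=
  if i < N.ee q k then (N.M.op q).getD none else γ

theorem step_nx (c : N.Q × (N.K → List N.G)) (k : N.K) (i : ℕ) :
    ((N.M.step c).2 k)[i]? = nx N c.1 k i (c.2 k)[i + N.dd c.1 k - N.ee c.1 k]? := by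
  unfold nx
  split_ifs with h
  · unfold FSM.ee at h
    split_ifs at h with h2
    · obtain ⟨rfl, h3⟩ := h2
      obtain rfl : i = 0 := by omega
      rcases h4 : N.M.op c.1 with _ | _ | g
      · simp [h4] at h3
      · simp [h4] at h3
      · exact N.step_push c g h4
    · omega
  · obtain ⟨j, rfl⟩ := Nat.exists_eq_add_of_le' (not_lt.1 h)
    rw [N.step_cell]
    congr 1
    omega

/-- The start content of a cell that does not hold a free bit. -/
def ini (u : List Bool) (i : ℕ) (k : N.K) : Option N.G :=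
  if k = N.k₀ then u[i]?.map N.inp else none

/-- The options, by cases. -/
inductive IsOp (u : List Bool) (m T : ℕ) : Op → Prop
  | init : IsOp u m T (vS 0, [(vS 0, N.cq N.q₀)])
  | acc : IsOp u m T (vA, [(vC T 0 (kc N N.k₁), N.cc N.k₁ (some (N.out true)))])
  | wit (j : ℕ) (b : Bool) : j < m →
      IsOp u m T (vW j, [(vW j, b.toNat), (vC 0 (u.length + j) (kc N N.k₀), ci N b)])
  | zero (i : ℕ) (k : N.K) : i ≤ T → (k = N.k₀ → u.length ≤ i → u.length + m ≤ i) →
      IsOp u m T (vC 0 i (kc N k), [(vC 0 i (kc N k), N.cc k (ini N u i k))])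
  | st (t : ℕ) (q : N.Q) (γ : Option N.G) : t < T →
      IsOp u m T (vS (t + 1), [(vS t, N.cq q), (vC t 0 (kc N (N.M.stk q)), N.cc (N.M.stk q) γ),
        (vS (t + 1), N.cq (N.M.next q γ))])
  | cell (t i : ℕ) (q : N.Q) (k : N.K) (γ : Option N.G) : i + t < T →
      IsOp u m T (vC (t + 1) i (kc N k), [(vS t, N.cq q),
        (vC t (i + N.dd q k - N.ee q k) (kc N k), N.cc k γ),
        (vC (t + 1) i (kc N k), N.cc k (nx N q k i γ))])

theorem ini_code (u : List Bool) (i : ℕ) (k : N.K) :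
    (bif eqB (kc N k) (kc N N.k₀) && ltB i u.length then
      (bif u.getD i false then ci N true else ci N false) else kc N k) = N.cc k (ini N u i k) := by
  unfold ini
  by_cases hk : k = N.k₀
  · subst hk
    by_cases hi : i < u.length
    · rw [eqB_iff.2 rfl, ltB_iff.2 hi, if_pos rfl, List.getD_eq_getElem _ _ hi,
        List.getElem?_eq_getElem hi]
      cases u[i] <;> rfl
    · rw [ltB_false_iff.2 (not_lt.1 hi), List.getElem?_eq_none (not_lt.1 hi)]
      simp [kc]
  · rw [eqB_false_iff.2 fun h => hk ((kc_inj N).1 h), if_neg hk]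
    rfl

theorem nx_code (q : N.Q) (k : N.K) (i : ℕ) (γ : Option N.G) :
    (bif ltB i (N.ee q k) then N.cc k ((N.M.op q).getD none) else N.cc k γ)
      = N.cc k (nx N q k i γ) := by
  unfold nx
  split_ifs with h
  · rw [ltB_iff.2 h]; rfl
  · rw [ltB_false_iff.2 (not_lt.1 h)]; rfl

theorem mem_ops {u : List Bool} {m l : List ℕ} {a : Op} :
    a ∈ ops N u m l ↔ IsOp N u m.length l.length a := by
  simp only [ops, tK, tS, tC, List.mem_cons, List.mem_append, List.mem_flatMap, mem_idx,
    List.mem_map, List.mem_filter, Finset.mem_toList, Finset.mem_univ, true_and,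
    List.not_mem_nil, or_false, exists_exists_eq_and, List.length_cons, List.length_drop,
    nx_code]
  constructor
  · rintro (rfl | rfl | (⟨j, hj, rfl | rfl⟩ | ⟨i, hi, c, ⟨⟨k, rfl⟩, h⟩, rfl⟩) |
      ⟨t, ht, ⟨p, rfl⟩ | ⟨i, hi, p, rfl⟩⟩)
    · exact .init
    · exact .acc
    · exact .wit j false hj
    · exact .wit j true hj
    · rw [ini_code]
      refine .zero i k (by omega) fun h1 h2 => ?_
      have h3 : i < u.length ∨ u.length + m.length ≤ i := by simpa [h1] using h
      omega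
    · exact .st t p.1 p.2 ht
    · exact .cell t i p.1 p.2.1 p.2.2 (by omega)
  · rintro (_ | _ | ⟨j, b, hj⟩ | ⟨i, k, hi, h⟩ | ⟨t, q, γ, ht⟩ | ⟨t, i, q, k, γ, h⟩)
    · exact .inl rfl
    · exact .inr (.inl rfl)
    · refine .inr (.inr (.inl (.inl ⟨j, hj, ?_⟩)))
      cases b
      · exact .inl rfl
      · exact .inr rfl
    · refine .inr (.inr (.inl (.inr ⟨i, by omega, kc N k, ⟨⟨k, rfl⟩, ?_⟩, by rw [ini_code]⟩)))
      by_cases hk : k = N.k₀
      · have := h hk
        simp only [hk, Bool.not_eq_true', Bool.and_eq_false_iff, eqB_false_iff, Bool.not_eq_false',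
          ltB_iff, ltB_false_iff]
        omega
      · simp [kc_inj, hk]
    · exact .inr (.inr (.inr ⟨t, ht, .inl ⟨(q, γ), rfl⟩⟩))
    · exact .inr (.inr (.inr ⟨t, by omega, .inr ⟨i, by omega, (q, k, γ), rfl⟩⟩))

variable (u : List Bool)

/-- The configuration at time `t`. -/
def run (w : List Bool) (t : ℕ) : N.Q × (N.K → List N.G) := N.M.step^[t] (N.start (u ++ w))

theorem run_succ (w : List Bool) (t : ℕ) : run N u w (t + 1) = N.M.step (run N u w t) :=
  iterate_succ_apply' _ _ _

/-- The values of the variables in the run on the witness `w`. -/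
def Val (w : List Bool) (p : ℕ × ℕ) : Prop :=
  (∃ t, p = (vS t, N.cq (run N u w t).1)) ∨ (∃ j, p = (vW j, (w.getD j false).toNat)) ∨
    ∃ t i k, p = (vC t i (kc N k), N.cc k ((run N u w t).2 k)[i]?)

theorem val_S {w : List Bool} {t : ℕ} {q : N.Q} :
    Val N u w (vS t, N.cq q) ↔ q = (run N u w t).1 := by
  simp [Val, cq_inj]

theorem val_W {w : List Bool} {j : ℕ} {b : Bool} :
    Val N u w (vW j, b.toNat) ↔ b = w.getD j false := by
  simp only [Val, Prod.mk.injEq, vW_vS, false_and, exists_false, vW_inj, exists_eq_left', vW_vC,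
    or_false, false_or]
  cases b <;> cases w.getD j false <;> simp

theorem val_C {w : List Bool} {t i : ℕ} {k : N.K} {γ : Option N.G} :
    Val N u w (vC t i (kc N k), N.cc k γ) ↔ γ = ((run N u w t).2 k)[i]? := by
  simp only [Val, Prod.mk.injEq, vC_vS, false_and, exists_false, vC_vW, false_or, vC_inj, kc_inj,
    cc_inj]
  exact ⟨fun ⟨_, _, _, ⟨h1, h2, h3⟩, _, h⟩ => by subst h1 h2 h3; exact h,
    fun h => ⟨t, i, k, ⟨rfl, rfl, rfl⟩, rfl, h⟩⟩

theorem val_fun (w : List Bool) (p q : ℕ × ℕ) (hp : Val N u w p) (hq : Val N u w q)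
    (e : p.1 = q.1) : p.2 = q.2 := by
  rcases hp with ⟨t, rfl⟩ | ⟨j, rfl⟩ | ⟨t, i, k, rfl⟩ <;>
    rcases hq with ⟨t', rfl⟩ | ⟨j', rfl⟩ | ⟨t', i', k', rfl⟩ <;>
    simp only [vS_inj, vW_inj, vC_inj, kc_inj, vS_vW, vW_vS, vS_vC, vC_vS, vW_vC, vC_vW] at e
  · rw [e]
  · rw [e]
  · obtain ⟨rfl, rfl, rfl⟩ := e; rfl

theorem start_wit {w : List Bool} {j : ℕ} (hj : j < w.length) :
    ((run N u w 0).2 N.k₀)[u.length + j]? = some (N.inp (w.getD j false)) := by
  simp [run, FSM.start, hj]

theorem start_ini {w : List Bool} {i : ℕ} {k : N.K}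
    (h : k = N.k₀ → u.length ≤ i → u.length + w.length ≤ i) :
    ((run N u w 0).2 k)[i]? = ini N u i k := by
  unfold ini
  by_cases hk : k = N.k₀
  · subst hk
    simp only [run, iterate_zero_apply, FSM.start, if_true, List.getElem?_map]
    by_cases hi : i < u.length
    · rw [List.getElem?_append_left hi]
    · rw [List.getElem?_eq_none (not_lt.1 hi),
        List.getElem?_eq_none (by rw [List.length_append]; exact h rfl (not_lt.1 hi))]
  · simp [run, FSM.start, hk]

theorem step_state (w : List Bool) (t : ℕ) : (run N u w (t + 1)).1 =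
    N.M.next (run N u w t).1 ((run N u w t).2 (N.M.stk (run N u w t).1))[0]? := by
  rw [run_succ, ← List.head?_eq_getElem?]; rfl

variable {T : ℕ}

theorem op_exists {w : List Bool} (hw : ((run N u w T).2 N.k₁)[0]? = some (N.out true)) {a : Op}
    (ha : IsOp N u w.length T a) :
    ∃ b, IsOp N u w.length T b ∧ b.1 = a.1 ∧ ∀ p ∈ b.2, Val N u w p := by
  rcases ha with _ | _ | ⟨j, b, hj⟩ | ⟨i, k, hi, h⟩ | ⟨t, q, γ, ht⟩ | ⟨t, i, q, k, γ, h⟩
  · exact ⟨_, .init, rfl, by simp [val_S, run, FSM.start]⟩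
  · exact ⟨_, .acc, rfl, by simp [val_C, hw]⟩
  · refine ⟨_, .wit j (w.getD j false) hj, rfl, ?_⟩
    simp only [List.forall_mem_cons, val_W, ci, val_C, start_wit N u hj, List.not_mem_nil,
      false_imp_iff, implies_true, and_self]
  · exact ⟨_, .zero i k hi h, rfl, by simp [val_C, start_ini N u h]⟩
  · exact ⟨_, .st t (run N u w t).1 ((run N u w t).2 (N.M.stk (run N u w t).1))[0]? ht, rfl, by
      simp [val_S, val_C, step_state]⟩
  · exact ⟨_, .cell t i (run N u w t).1 k
      ((run N u w t).2 k)[i + N.dd (run N u w t).1 k - N.ee (run N u w t).1 k]? h, rfl, by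
      simp [val_S, val_C, run_succ, step_nx]⟩

theorem op_unique {m : ℕ} {w : List Bool} {a b : Op} (ha : IsOp N u m T a) (hb : IsOp N u m T b)
    (e : a.1 = b.1) (h1 : ∀ p ∈ a.2, Val N u w p) (h2 : ∀ p ∈ b.2, Val N u w p) : a = b := by
  rcases ha with _ | _ | ⟨j, c, hj⟩ | ⟨i, k, hi, h⟩ | ⟨t, q, γ, ht⟩ | ⟨t, i, q, k, γ, h⟩ <;>
    rcases hb with _ | _ | ⟨j', c', hj'⟩ | ⟨i', k', hi', h'⟩ | ⟨t', q', γ', ht'⟩ |
      ⟨t', i', q', k', γ', h'⟩ <;>
    simp only [vS_inj, vW_inj, vC_inj, kc_inj, vS_vW, vW_vS, vS_vC, vC_vS, vW_vC, vC_vW, vA_vS,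
      vS_vA, vA_vW, vW_vA, vA_vC, vC_vA, Nat.add_right_cancel_iff, Nat.zero_ne_add_one,
      Nat.add_one_ne_zero, false_and, true_and] at e <;>
    simp only [List.forall_mem_cons, val_S, val_W, val_C] at h1 h2
  · rfl
  · rfl
  · subst e; rw [h1.1, h2.1]
  · obtain ⟨rfl, rfl⟩ := e; rfl
  · subst e
    obtain rfl : q = q' := h1.1.trans h2.1.symm
    rw [h1.2.1, h2.2.1]
  · obtain ⟨rfl, rfl, rfl⟩ := e
    obtain rfl : q = q' := h1.1.trans h2.1.symm
    rw [h1.2.1, h2.2.1]

theorem op_inj {w w' : List Bool} (hl : w.length = w'.length)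
    (h : ∀ a, IsOp N u w.length T a → (∀ p ∈ a.2, Val N u w p) → ∀ p ∈ a.2, Val N u w' p) :
    w = w' := by
  refine List.ext_getElem hl fun j h1 h2 => ?_
  have := h _ (.wit j (w.getD j false) h1) (by
    simp only [List.forall_mem_cons, val_W, ci, val_C, start_wit N u h1, List.not_mem_nil,
      false_imp_iff, implies_true, and_self]) _ List.mem_cons_self
  rwa [val_W, List.getD_eq_getElem _ _ h1, List.getD_eq_getElem _ _ h2] at this

theorem op_sur {m : ℕ} (Δ : ℕ × ℕ → Prop) (hΔ : ∀ p q, Δ p → Δ q → p.1 = q.1 → p.2 = q.2)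
    (h : ∀ a, IsOp N u m T a → ∃ b, IsOp N u m T b ∧ b.1 = a.1 ∧ ∀ p ∈ b.2, Δ p) :
    ∃ w : List Bool, w.length = m ∧ ((run N u w T).2 N.k₁)[0]? = some (N.out true) ∧
      ∀ a, IsOp N u m T a → (∀ p ∈ a.2, Δ p) → ∀ p ∈ a.2, Val N u w p := by
  classical
  let w : List Bool := (List.range m).map fun j => decide (Δ (vW j, 1))
  have hw : w.length = m := by simp [w]
  have hW : ∀ j < m, Δ (vW j, (w.getD j false).toNat) ∧
      Δ (vC 0 (u.length + j) (kc N N.k₀), ci N (w.getD j false)) := by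
    intro j hj
    obtain ⟨b, hb, e, hd⟩ := h _ (.wit j true hj)
    rcases hb with _ | _ | ⟨j', c, hj'⟩ | _ | _ | _ <;>
      simp only [vW_inj, vS_vW, vC_vW, vA_vW] at e
    subst e
    simp only [List.forall_mem_cons] at hd
    have h1 : w.getD j' false = c := by
      have h2 : w.getD j' false = decide (Δ (vW j', 1)) := by simp [w, hj]
      rw [h2]
      cases c
      · exact decide_eq_false fun h3 => absurd (hΔ _ _ h3 hd.1 rfl) (by simp)
      · exact decide_eq_true hd.1
    rw [h1]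
    exact ⟨hd.1, hd.2.1⟩
  have key : ∀ t ≤ T, Δ (vS t, N.cq (run N u w t).1) ∧
      ∀ k i, i + t ≤ T → Δ (vC t i (kc N k), N.cc k ((run N u w t).2 k)[i]?) := by
    intro t
    induction t with
    | zero =>
      refine fun _ => ⟨?_, fun k i hi => ?_⟩
      · obtain ⟨b, hb, e, hd⟩ := h _ .init
        rcases hb with _ | _ | _ | _ | _ | _ <;>
          simp only [vS_inj, vW_vS, vC_vS, vA_vS, Nat.add_one_ne_zero] at e
        exact hd _ List.mem_cons_self
      · by_cases hk : k = N.k₀ → u.length ≤ i → u.length + m ≤ i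
        · obtain ⟨b, hb, e, hd⟩ := h _ (.zero i k hi hk)
          rcases hb with _ | _ | _ | _ | _ | _ <;>
            simp only [vC_inj, kc_inj, vW_vC, vS_vC, vA_vC, Nat.add_one_ne_zero, false_and,
              true_and] at e
          obtain ⟨rfl, rfl⟩ := e
          rw [start_ini N u (hw ▸ hk)]
          exact hd _ List.mem_cons_self
        · simp only [Classical.not_imp, not_le] at hk
          obtain ⟨rfl, h1, h2⟩ := hk
          obtain ⟨j, rfl⟩ := Nat.exists_eq_add_of_le h1
          rw [start_wit N u (by omega)]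
          exact (hW j (by omega)).2
    | succ t ih =>
      intro ht
      obtain ⟨a1, a2⟩ := ih (by omega)
      refine ⟨?_, fun k i hi => ?_⟩
      · obtain ⟨b, hb, e, hd⟩ := h _ (.st t N.q₀ none ht)
        rcases hb with _ | _ | _ | _ | ⟨t', q, γ, _⟩ | _ <;>
          simp only [vS_inj, vW_vS, vC_vS, vA_vS, Nat.zero_ne_add_one,
            Nat.add_right_cancel_iff] at e
        subst e
        simp only [List.forall_mem_cons] at hd
        obtain rfl := (cq_inj N).1 (hΔ _ _ hd.1 a1 rfl)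
        obtain ⟨-, rfl⟩ := (cc_inj N).1 (hΔ _ _ hd.2.1 (a2 _ 0 (by omega)) rfl)
        rw [step_state]
        exact hd.2.2.1
      · obtain ⟨b, hb, e, hd⟩ := h _ (.cell t i N.q₀ k none hi)
        rcases hb with _ | _ | _ | _ | _ | ⟨t', i', q, k', γ, _⟩ <;>
          simp only [vC_inj, kc_inj, vW_vC, vS_vC, vA_vC, Nat.zero_ne_add_one, false_and,
            Nat.add_right_cancel_iff] at e
        obtain ⟨rfl, rfl, rfl⟩ := e
        simp only [List.forall_mem_cons] at hd
        obtain rfl := (cq_inj N).1 (hΔ _ _ hd.1 a1 rfl)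
        have : N.dd (run N u w t').1 k' ≤ 1 := by unfold FSM.dd; split_ifs <;> omega
        obtain ⟨-, rfl⟩ := (cc_inj N).1 (hΔ _ _ hd.2.1 (a2 _ _ (by omega)) rfl)
        rw [run_succ, step_nx]
        exact hd.2.2.1
  have hS : ∀ t ≤ T, ∀ q, Δ (vS t, N.cq q) → Val N u w (vS t, N.cq q) := fun t ht q hq =>
    (val_S N u).2 ((cq_inj N).1 (hΔ _ _ hq (key t ht).1 rfl))
  have hC : ∀ t i k γ, i + t ≤ T → Δ (vC t i (kc N k), N.cc k γ) →
      Val N u w (vC t i (kc N k), N.cc k γ) := fun t i k γ ht hq =>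
    (val_C N u).2 ((cc_inj N).1 (hΔ _ _ hq ((key t (by omega)).2 k i ht) rfl)).2
  refine ⟨w, hw, ?_, fun a ha hd => ?_⟩
  · obtain ⟨b, hb, e, hd⟩ := h _ .acc
    rcases hb with _ | _ | _ | _ | _ | _ <;> simp only [vW_vA, vS_vA, vC_vA] at e
    exact ((val_C N u).1 (hC _ _ _ _ (by omega) (hd _ List.mem_cons_self))).symm
  · rcases ha with _ | _ | ⟨j, b, hj⟩ | ⟨i, k, hi, h⟩ | ⟨t, q, γ, ht⟩ | ⟨t, i, q, k, γ, h⟩ <;>
      simp only [List.forall_mem_cons, List.not_mem_nil, false_imp_iff, implies_true,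
        and_true] at hd ⊢
    · exact hS _ (by omega) _ hd
    · exact hC _ _ _ _ (by omega) hd
    · have h1 : b = w.getD j false := by
        have := hΔ _ _ hd.1 (hW j hj).1 rfl
        revert this
        cases b <;> cases w.getD j false <;> simp
      exact ⟨(val_W N u).2 h1, (val_C N u).2 (by rw [start_wit N u (by omega), h1])⟩
    · exact hC _ _ _ _ hi hd
    · exact ⟨hS _ ht.le _ hd.1, hC _ _ _ _ (by omega) hd.2.1, hS _ ht _ hd.2.2⟩
    · have : N.dd q k ≤ 1 := by unfold FSM.dd; split_ifs <;> omega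
      exact ⟨hS _ (by omega) _ hd.1, hC _ _ _ _ (by omega) hd.2.1, hC _ _ _ _ (by omega) hd.2.2⟩

theorem card_Sel_ops (m l : List ℕ) (R : List Bool → Bool)
    (hR : ∀ w : List Bool, w.length = m.length → (run N u w l.length).2 N.k₁ = [N.out (R w)]) :
    (Sel (ops N u m l)).card =
      (Finset.univ.filter fun w : Fin m.length → Bool => R (List.ofFn w) = true).card := by
  have hacc : ∀ w : List Bool, w.length = m.length →
      (((run N u w l.length).2 N.k₁)[0]? = some (N.out true) ↔ R w = true) := fun w hw => by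
    simp [hR w hw, N.out_inj.eq_iff]
  refine card_Sel _ _ (fun w => Val N u (List.ofFn w)) (fun w => val_fun N u _)
    (fun w hw a ha => ?_) (fun w a ha b hb => op_unique N u ((mem_ops N).1 ha) ((mem_ops N).1 hb))
    (fun w _ w' _ h => List.ofFn_injective (op_inj N u (T := l.length) (by simp) fun a ha =>
      h a ((mem_ops N).2 (by simpa using ha)))) fun Δ hΔ h => ?_
  · obtain ⟨b, hb, h⟩ := op_exists N u ((hacc _ (by simp)).2 (Finset.mem_filter.1 hw).2)
      (a := a) (by simpa using (mem_ops N).1 ha)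
    exact ⟨b, (mem_ops N).2 (by simpa using hb), h⟩
  · obtain ⟨w, hw, h1, h2⟩ := op_sur N u (m := m.length) (T := l.length) Δ hΔ fun a ha => by
      obtain ⟨b, hb, h⟩ := h a ((mem_ops N).2 ha)
      exact ⟨b, (mem_ops N).1 hb, h⟩
    have e : List.ofFn (fun i : Fin m.length => w[i.1]'(i.2.trans_eq hw.symm)) = w :=
      List.ext_getElem (by simp [hw]) fun i _ _ => by simp
    refine ⟨fun i => w[i.1]'(i.2.trans_eq hw.symm), Finset.mem_filter.2 ⟨Finset.mem_univ _, ?_⟩,
      fun a ha => ?_⟩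
    · rw [e]; exact (hacc w hw).1 h1
    · rw [e]; exact h2 a ((mem_ops N).1 ha)

theorem vs_ops_ne (m l : List ℕ) : vs (ops N u m l) ≠ [] :=
  List.ne_nil_of_mem (a := (vS 0, [(vS 0, N.cq N.q₀)]))
    (mem_vs.2 ⟨(mem_ops N).2 .init, inc_false.2 (by simp)⟩)

end Pool.Agent.MP_f00251_lc.Src

end MrgPart2

-- ======== part 3: formerly Pool.Agent.MP_f00251_lc.Src.Main
section MrgPart3

/-!
Counting independent sets is hard for the counting class, and a random independent set shows a
witness.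
-/

set_option autoImplicit false

namespace Pool.Agent.MP_f00251_lc

open Pool.Agent.PolyT Pool.Agent.H82 N487b59b3 Src

theorem exists_ops {f : List Bool → ℕ} (h : SharpP f) : ∃ L : List Bool → List Op,
    PolyT.Poly L ∧ ∀ x, vs (L x) ≠ [] ∧ f x = (Sel (L x)).card := by
  obtain ⟨p, R, hR, hf⟩ := h
  rw [← poly_iff] at hR
  have he : PolyT.Poly (fun x : List Bool => bitEncode x) := PolyT.Poly.bitsOf (PT.refl _)
  obtain ⟨F, hF, hFl⟩ := exists_list_eval he p
  have hv : PolyT.Poly (fun y : List Bool × Raw => y.2.val) :=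
    PolyT.Poly.bitsOf (PolyT.Poly.id.snd : PolyT.Poly (fun y : List Bool × Raw => y.2))
  have hR' : PolyT.Poly (fun y : List Bool × Raw => R (y.1, y.2.val)) := by fun_prop
  obtain ⟨N, r, hN⟩ := exists_fsm hR'
  obtain ⟨G, hG, hGl⟩ := exists_list_eval he (r.comp (2 * Polynomial.X + 1 + p))
  have hu : PolyT.Poly (fun x : List Bool => delimit (bitEncode x)) :=
    PolyT.Poly.bitsOf (PT.delimit (PT.refl _))
  refine ⟨_, p_ops N hu hF hG, fun x => ⟨vs_ops_ne N _ _ _, ?_⟩⟩
  rw [hf, card_Sel_ops N _ _ _ (fun w => R (x, w)), ← hFl]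
  intro w hw
  refine hN (x, Raw.mk w) _ (le_of_eq ?_)
  rw [hGl, Polynomial.eval_comp, length_enc_pair]
  congr 1
  simp [hw, hFl]

theorem source : SourceStmt := by
  intro f hf
  obtain ⟨L, hL, h⟩ := exists_ops hf
  refine ⟨fun x => UU (L x), fun x => EE (L x), fun y => hh (L y.1) y.2, fun y => ac (L y.1) y.2,
    p_UU hL, p_EE hL, p_hh (by fun_prop) (by fun_prop), p_ac (by fun_prop) (by fun_prop),
    fun x => ?_⟩
  obtain ⟨h0, h1⟩ := h x
  beta_reduce
  rw [h1]
  refine ⟨good _ h0, (hh_card (L x) h0).symm, fun X hX => ?_, ac_many (L x) h0⟩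
  exact Finset.card_pos.2 ⟨_, (ac_iff (L x) X).1 hX⟩

end Pool.Agent.MP_f00251_lc

end MrgPart3

-- ======== part 4: formerly Pool.Agent.MP_f00251_lc.Conv.Sampler
section MrgPart4

/-!
If NP is contained in BPP, then optimal sorting sequences can be sampled almost uniformly.
-/

set_option autoImplicit false

namespace Pool.Agent.MP_f00251_lc

open Pool.Agent.PolyT Pool.Agent.H82 N487b59b3 Finset Ver
open Pool.Agent.MP_74c440_lc

namespace Smp

instance : PD ℤ where
  dec l := cond (eqB (PD.dec l : ℕ × ℕ).1 0) (-Ver.toZ (PD.dec l : ℕ × ℕ).2)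
    (Ver.toZ (PD.dec l : ℕ × ℕ).1)
  poly := by fun_prop
  dec_enc a := by
    rw [enc_int, PD.dec_enc]
    unfold Ver.toZ
    cases h : eqB a.toNat 0
    · rw [eqB_false_iff] at h
      simp only [cond_false]
      omega
    · rw [eqB_iff] at h
      simp only [cond_true]
      omega

/-- The number that codes a list of pairs. -/
def cd (s : List (ℕ × ℕ)) : ℕ := ofBits (delimit (bitEncode s) ++ [true])

/-- Decoding. -/
def dc (y : ℕ) : List (ℕ × ℕ) := PD.dec (sel true y.bits)

theorem bits_ofBits' (l : List Bool) : (ofBits (l ++ [true])).bits = l ++ [true] := by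
  induction l with
  | nil => simp [ofBits]
  | cons b l ih =>
    rw [List.cons_append, ofBits_cons, ← Nat.bit_val, Nat.bits_append_bit, ih]
    intro h
    rw [h] at ih
    simp at ih

theorem dc_cd (s : List (ℕ × ℕ)) : dc (cd s) = s := by
  rw [dc, cd, bits_ofBits', sel_pair, if_pos rfl, PD.dec_enc]

/-- Valid end positions. -/
def Valid (n : ℕ) (r : ℕ × ℕ) : Prop := 1 ≤ r.1 ∧ r.1 ≤ r.2 ∧ r.2 ≤ n

theorem grev_eq {π : List ℤ} {r : ℕ × ℕ} (h : r.1 ≤ r.2) : grev π r = rev π r := by
  unfold grev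
  rw [ltB_false_iff.2 h]; rfl

theorem length_rev (π : List ℤ) {r : ℕ × ℕ} (h : r.1 ≤ r.2) : (rev π r).length = π.length := by
  simpa using (rev_perm π r h).length_eq

theorem isSP_rev {π : List ℤ} {r : ℕ × ℕ} (h : r.1 ≤ r.2) (hp : IsSP π) : IsSP (rev π r) := by
  unfold IsSP
  rw [length_rev π h]
  exact (rev_perm π r h).trans hp

theorem sorts_cons {π : List ℤ} {r : ℕ × ℕ} {s : List (ℕ × ℕ)} :
    Sorts π (r :: s) ↔ Valid π.length r ∧ Sorts (rev π r) s := by
  unfold Sorts Valid
  simp only [List.forall_mem_cons, List.foldl_cons]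
  constructor
  · rintro ⟨⟨h1, h2⟩, h3⟩
    rw [length_rev π h1.2.1]
    exact ⟨h1, h2, h3⟩
  · rintro ⟨h1, h2, h3⟩
    rw [length_rev π h1.2.1] at h2 h3
    exact ⟨⟨h1, h2⟩, h3⟩

theorem enc_le {n : ℕ} {s : List (ℕ × ℕ)} (h : ∀ r ∈ s, r.1 ≤ n ∧ r.2 ≤ n) :
    (bitEncode s).length ≤ s.length * (2 * (3 * n + 1) + 1) := by
  rw [enc_list, List.length_flatMap]
  refine PolyT.Poly.sum_map_le _ _ _ fun r hr => ?_
  have a1 := length_enc_nat_le_self r.1
  have a2 := length_enc_nat_le_self r.2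
  have := h r hr
  rw [length_delimit, length_enc_pair]
  omega

variable (d : List ℤ → ℕ)

/-- The test for optimal sorting sequences. -/
def optB (π : List ℤ) (s : List (ℕ × ℕ)) : Bool :=
  s.all (fun r => ltB 0 r.1 && !ltB r.2 r.1 && !ltB π.length r.2) &&
    eqB (s.foldl grev π) ((idx π).map (fun k => Ver.toZ (k + 1))) && eqB s.length (d π)

/-- The reversals that lower the distance. -/
def cands (π : List ℤ) : List (ℕ × ℕ) :=
  ((idx π).flatMap fun i => (idx π).map fun j => (i + 1, j + 1)).filter fun r =>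
    !ltB r.2 r.1 && eqB (d (grev π r) + 1) (d π)

/-- One greedy step. -/
def step (π : List ℤ) (s : List (ℕ × ℕ)) : List (ℕ × ℕ) := s ++ (cands d (s.foldl grev π)).take 1

/-- The greedy sorting sequence. -/
def greedy (π : List ℤ) : List (ℕ × ℕ) := (π ++ π ++ [0, 0]).foldl (fun s _ => step d π s) []

theorem mem_cands {π : List ℤ} {r : ℕ × ℕ} :
    r ∈ cands d π ↔ Valid π.length r ∧ d (rev π r) + 1 = d π := by
  unfold cands Valid
  simp only [List.mem_filter, List.mem_flatMap, List.mem_map, mem_idx, Bool.and_eq_true,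
    Bool.not_eq_true', ltB_false_iff, eqB_iff]
  constructor
  · rintro ⟨⟨i, hi, j, hj, rfl⟩, h1, h2⟩
    rw [grev_eq h1] at h2
    exact ⟨⟨by simp, h1, hj⟩, h2⟩
  · rintro ⟨⟨h1, h2, h3⟩, h4⟩
    refine ⟨⟨r.1 - 1, by omega, r.2 - 1, by omega, Prod.ext (by simp; omega) (by simp; omega)⟩,
      h2, by rwa [grev_eq h2]⟩

theorem length_foldl_grev (s : List (ℕ × ℕ)) (π : List ℤ) :
    (s.foldl grev π).length = π.length := by
  simpa using (foldl_grev_perm s π).length_eq

theorem iter_bound (π : List ℤ) (l : List ℤ) (s : List (ℕ × ℕ)) (h : ∀ r ∈ s, Valid π.length r) :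
    (∀ r ∈ l.foldl (fun s _ => step d π s) s, Valid π.length r) ∧
      (l.foldl (fun s _ => step d π s) s).length ≤ s.length + l.length := by
  induction l generalizing s with
  | nil => exact ⟨h, le_rfl⟩
  | cons a l ih =>
    rw [List.foldl_cons]
    obtain ⟨h1, h2⟩ := ih (step d π s) fun r hr => by
      rcases List.mem_append.1 hr with hr | hr
      · exact h r hr
      · have := ((mem_cands d).1 (List.mem_of_mem_take hr)).1
        rwa [length_foldl_grev] at this
    refine ⟨h1, h2.trans ?_⟩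
    have : (step d π s).length ≤ s.length + 1 := by
      rw [step, List.length_append]
      exact Nat.add_le_add_left (List.length_take_le _ _) _
    rw [List.length_cons]; omega

variable {d}

theorem p_optB {α : Type} [N487b59b3 α] (hd : Poly d) {f : α → List ℤ} {s : α → List (ℕ × ℕ)}
    (hf : Poly f) (hs : Poly s) : Poly (fun a => optB d (f a) (s a)) := by
  unfold optB
  fun_prop

theorem p_greedy (hd : Poly d) : Poly (greedy d) := by
  have h1 : Poly (cands d) := by unfold cands; fun_prop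
  have h2 : Un fun π : List ℤ => (π.length + π.length + 2) * (2 * (3 * π.length + 1) + 1) := by
    fun_prop
  refine Poly.foldl (f := fun π s (_ : ℤ) => step d π s) (by unfold step; fun_prop)
    (l := fun π => π ++ π ++ [0, 0]) (by fun_prop) (i := fun _ => []) (by fun_prop) h2.2
    fun π n => ?_
  obtain ⟨a1, a2⟩ := iter_bound d π ((π ++ π ++ [0, 0]).take n) [] (by simp)
  refine (enc_le fun r hr => ⟨(a1 r hr).2.1.trans (a1 r hr).2.2, (a1 r hr).2.2⟩).trans
    (Nat.mul_le_mul_right _ (a2.trans ?_))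
  simp
  omega

variable (h : ∀ π, IsSP π → d π ≤ 2 * π.length + 2 ∧
    (∃ s, Sorts π s ∧ s.length = d π) ∧ ∀ t, Sorts π t → d π ≤ t.length)
include h

theorem mem_opt {π : List ℤ} {s : List (ℕ × ℕ)} : s ∈ Opt π ↔ Sorts π s ∧ s.length = d π := by
  constructor
  · intro hs
    obtain ⟨-, ⟨t, ht, h2⟩, h3⟩ := h π (isSP_of_sorts hs.1)
    exact ⟨hs.1, le_antisymm (h2 ▸ hs.2 t ht) (h3 s hs.1)⟩
  · rintro ⟨h1, h2⟩
    exact ⟨h1, fun t ht => h2 ▸ (h π (isSP_of_sorts ht)).2.2 t ht⟩

theorem optB_iff {π : List ℤ} {s : List (ℕ × ℕ)} : optB d π s = true ↔ s ∈ Opt π := by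
  rw [mem_opt h]
  unfold optB Sorts
  simp only [Bool.and_eq_true, List.all_eq_true, ltB_iff, Bool.not_eq_true', ltB_false_iff,
    eqB_iff, target]
  constructor
  · rintro ⟨⟨h1, h2⟩, h4⟩
    refine ⟨⟨fun r hr => ⟨(h1 r hr).1.1, (h1 r hr).1.2, (h1 r hr).2⟩, ?_⟩, h4⟩
    rw [← foldl_grev_eq s π (fun r hr => (h1 r hr).1.2), h2]
  · rintro ⟨⟨h1, h2⟩, h4⟩
    refine ⟨⟨fun r hr => ⟨⟨(h1 r hr).1, (h1 r hr).2.1⟩, (h1 r hr).2.2⟩, ?_⟩, h4⟩
    rw [foldl_grev_eq s π (fun r hr => (h1 r hr).2.1), h2]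

theorem cands_ne {π : List ℤ} (hp : IsSP π) (h0 : d π ≠ 0) : cands d π ≠ [] := by
  obtain ⟨-, ⟨s, hs, h2⟩, h3⟩ := h π hp
  cases s with
  | nil => exact absurd h2.symm h0
  | cons r s =>
    obtain ⟨h4, h5⟩ := sorts_cons.1 hs
    obtain ⟨-, ⟨t, ht, h6⟩, h7⟩ := h _ (isSP_rev h4.2.1 hp)
    have a1 := h7 s h5
    have a2 := h3 (r :: t) (sorts_cons.2 ⟨h4, ht⟩)
    rw [List.length_cons] at h2 a2
    exact List.ne_nil_of_mem ((mem_cands d).2 ⟨h4, by omega⟩)

theorem iter_opt (π : List ℤ) (l : List ℤ) (s : List (ℕ × ℕ)) (hp : IsSP (s.foldl grev π))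
    (hl : d (s.foldl grev π) ≤ l.length) :
    ∃ t, l.foldl (fun s _ => step d π s) s = s ++ t ∧ t ∈ Opt (s.foldl grev π) := by
  induction l generalizing s with
  | nil =>
    obtain ⟨-, ⟨t, ht, h2⟩, -⟩ := h _ hp
    obtain rfl : t = [] := List.eq_nil_of_length_eq_zero (by simp at hl; omega)
    exact ⟨[], by simp, ht, fun _ _ => Nat.zero_le _⟩
  | cons a l ih =>
    rw [List.foldl_cons]
    cases hc : cands d (s.foldl grev π) with
    | nil =>
      have h0 : d (s.foldl grev π) = 0 := by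
        by_contra h0
        exact cands_ne h hp h0 hc
      have e : step d π s = s := by simp [step, hc]
      rw [e]
      exact ih s hp (by omega)
    | cons r c =>
      have e : step d π s = s ++ [r] := by simp [step, hc]
      obtain ⟨h1, h2⟩ := (mem_cands d).1 (hc ▸ List.mem_cons_self : r ∈ cands d (s.foldl grev π))
      have e2 : (s ++ [r]).foldl grev π = rev (s.foldl grev π) r := by
        rw [List.foldl_append, List.foldl_cons, List.foldl_nil, grev_eq h1.2.1]
      obtain ⟨t, h3, h4⟩ := ih (s ++ [r]) (e2 ▸ isSP_rev h1.2.1 hp)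
        (by rw [e2]; rw [List.length_cons] at hl; omega)
      rw [e2, mem_opt h] at h4
      refine ⟨r :: t, by rw [e, h3]; simp, (mem_opt h).2 ⟨sorts_cons.2 ⟨h1, h4.1⟩, ?_⟩⟩
      rw [List.length_cons, h4.2, h2]

theorem greedy_opt {π : List ℤ} (hp : IsSP π) : greedy d π ∈ Opt π := by
  obtain ⟨t, h1, h2⟩ := iter_opt h π (π ++ π ++ [0, 0]) [] hp
    ((h π hp).1.trans (by simp; omega))
  rw [greedy, h1]
  exact h2

/-- Length of the codes. -/
def cL (n : ℕ) : ℕ := 2 * ((2 * n + 2) * (2 * (3 * n + 1) + 1)) + 2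

theorem mem_wit (x : List ℤ × List Bool) (y : ℕ) :
    y ∈ wit (fun x : List ℤ × List Bool => cL x.1.length) (fun _ => 0)
      (fun q => eqB q.2.1 (cd (dc q.2.1)) && optB d q.1.1 (dc q.2.1)) x ↔
      ∃ s ∈ Opt x.1, cd s = y := by
  simp only [wit, mem_filter, mem_range, Bool.and_eq_true, eqB_iff, optB_iff h]
  constructor
  · rintro ⟨-, w, -, h1, h2⟩
    exact ⟨_, h2, h1.symm⟩
  · rintro ⟨s, hs, rfl⟩
    refine ⟨(ofBits_lt _).trans_le (Nat.pow_le_pow_right (by norm_num) ?_), [], le_rfl,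
      by rw [dc_cd], by rwa [dc_cd]⟩
    obtain ⟨h1, h2⟩ := (mem_opt h).1 hs
    have a1 := enc_le fun r hr => And.intro ((h1.1 r hr).2.1.trans (h1.1 r hr).2.2) (h1.1 r hr).2.2
    have a2 := Nat.mul_le_mul_right (2 * (3 * x.1.length + 1) + 1)
      (h2 ▸ (h _ (isSP_of_sorts h1)).1 : s.length ≤ 2 * x.1.length + 2)
    rw [List.length_append, length_delimit, cL]
    simp only [List.length_singleton]
    omega

end Smp

open Smp in
/-- If NP is contained in BPP there is an almost uniform sampler which always outputs an optimal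
sorting sequence. -/
theorem sampler_of (hd : DistStmt) (h : N68a2faeb.NP ⊆ N68a2faeb.BPP) :
    ∃ (p : Polynomial ℕ) (A : (List ℤ × List Bool) × List Bool → List (ℕ × ℕ)), Poly A ∧
      ∀ x : List ℤ × List Bool, IsSP x.1 → (∀ r, A (x, r) ∈ Opt x.1) ∧
        ∀ E : Set (List (ℕ × ℕ)), |prob (p.eval (bitEncode x).length) (fun r => A (x, r) ∈ E) -
          (Set.ncard (Opt x.1 ∩ E) : ℝ) / Set.ncard (Opt x.1)| ≤ 1 / 2 ^ x.2.length := by
  classical
  obtain ⟨d, hd, hs⟩ := hd
  have h1 : Poly fun y : ℕ => dc y := by unfold dc; fun_prop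
  have h2 : Poly fun s : List (ℕ × ℕ) => cd s := by unfold cd; fun_prop
  have h3 := p_greedy hd
  obtain ⟨p, A, hA, hp⟩ := unif_gen (l := fun x : List ℤ × List Bool => cL x.1.length)
    (B := fun _ => 0) (V := fun q => eqB q.2.1 (cd (dc q.2.1)) && optB d q.1.1 (dc q.2.1))
    (by unfold cL; fun_prop) (by fun_prop)
    (p_and (by fun_prop) (p_optB hd (by fun_prop) (by fun_prop))) h (e := fun x => x.2.length)
    (by fun_prop)
  refine ⟨p, fun a => cond (optB d a.1.1 (dc (A a))) (dc (A a)) (greedy d a.1.1),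
    p_cond (p_optB hd (by fun_prop) (by fun_prop)) (by fun_prop) (by fun_prop),
    fun x hx => ⟨fun r => ?_, fun E => ?_⟩⟩
  · cases hb : optB d x.1 (dc (A (x, r)))
    · simpa only [hb, cond_false] using greedy_opt hs hx
    · simpa only [hb, cond_true] using (optB_iff hs).1 hb
  have key : ∀ E : Set (List (ℕ × ℕ)), ((wit (fun x : List ℤ × List Bool => cL x.1.length)
      (fun _ => 0) (fun q => eqB q.2.1 (cd (dc q.2.1)) && optB d q.1.1 (dc q.2.1)) x).filter
        fun y => cond (optB d x.1 (dc y)) (dc y) (greedy d x.1) ∈ E).card =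
      Set.ncard (Opt x.1 ∩ E) := by
    intro E
    rw [← Set.ncard_coe_finset, ← Set.ncard_image_of_injective _ (f := cd)]
    · congr 1
      ext y
      simp only [coe_filter, mem_wit hs, Set.mem_ofPred_eq, Set.mem_image]
      constructor
      · rintro ⟨⟨s, a1, rfl⟩, a2⟩
        rw [dc_cd, (optB_iff hs).2 a1] at a2
        exact ⟨s, ⟨a1, a2⟩, rfl⟩
      · rintro ⟨s, ⟨a1, a2⟩, rfl⟩
        exact ⟨⟨s, a1, rfl⟩, by rwa [dc_cd, (optB_iff hs).2 a1]⟩
    · intro s s' e
      simpa only [dc_cd] using congrArg dc e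
  have a1 := hp x ⟨_, (mem_wit hs x _).2 ⟨_, greedy_opt hs hx, rfl⟩⟩
    fun y => cond (optB d x.1 (dc y)) (dc y) (greedy d x.1) ∈ E
  have a2 := key Set.univ
  simp only [Set.mem_univ, filter_true, Set.inter_univ] at a2
  rw [prob_eq, ← key, ← a2]
  exact a1

end Pool.Agent.MP_f00251_lc

end MrgPart4

-- ======== part 5: formerly Pool.Agent.MP_f00251_lc.Conv.Q2
section MrgPart5

/-!
A sampler of optimal sorting sequences exists if and only if NP is equal to RP.
-/

set_option autoImplicit false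

namespace Pool.Agent.MP_f00251_lc

open Pool.Agent.PolyT Pool.Agent.H82 N487b59b3 Finset Ver
open Pool.Agent.MP_74c440_lc

namespace Smp

theorem coinProb_eq (n : ℕ) (E : List Bool → Prop) : coinProb n E = ev n (fun r => ind (E r)) :=
  prob_eq n E

/-- One-sided error with success probability at least `c`. -/
def OneSided (c : ℝ) (L : List Bool → Bool) : Prop :=
  ∃ (p : Polynomial ℕ) (R : List Bool × List Bool → Bool), Poly R ∧
    ∀ x, (∀ r, R (x, r) = true → L x = true) ∧
      (L x = true → c ≤ ev (p.eval x.length) fun r => ind (R (x, r) = true))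

theorem rp_iff (L : List Bool → Bool) : L ∈ RP ↔ OneSided (1 / 2) L :=
  exists_congr fun p => exists_congr fun R => and_congr (poly_iff _).symm
    (forall_congr' fun x => by rw [coinProb_eq])

theorem OneSided.mono {c c' : ℝ} (hc : c' ≤ c) {L : List Bool → Bool} (h : OneSided c L) :
    OneSided c' L := by
  obtain ⟨p, R, hR, h⟩ := h
  exact ⟨p, R, hR, fun x => ⟨(h x).1, fun hx => hc.trans ((h x).2 hx)⟩⟩

theorem OneSided.amp {L : List Bool → Bool} (h : OneSided (1 / 8) L) : OneSided (2 / 3) L := by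
  obtain ⟨p, R, hR, h⟩ := h
  have hl : Poly fun a : (List Bool × List Bool) × ℕ => p.eval a.1.1.length :=
    (u_eval p (by fun_prop)).1
  refine ⟨9 * p, fun a => (List.range 9).any fun i => R (a.1, chunk (p.eval a.1.length) a.2 i),
    p_any (hR.comp (p_pair (by fun_prop) (p_chunk hl (by fun_prop) (by fun_prop)))) (p_const _),
    fun x => ⟨fun r hr => ?_, fun hx => ?_⟩⟩
  · obtain ⟨i, -, hi⟩ := List.any_eq_true.1 hr
    exact (h x).1 _ hi
  have h1 := (h x).2 hx
  have h2 := ev_prod_chunk (p.eval x.length) 9 fun _ r => ind (¬ R (x, r) = true)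
  rw [prod_const, card_range, ev_ind_not] at h2
  have h3 : ev (9 * p.eval x.length) (fun r => ind (¬ ((List.range 9).any fun i =>
      R (x, chunk (p.eval x.length) r i)) = true)) ≤ (7 / 8) ^ 9 := by
    refine le_trans (ev_mono fun r _ => ?_) (h2.le.trans (pow_le_pow_left₀ ?_ (by linarith) 9))
    · by_cases hb : ((List.range 9).any fun i => R (x, chunk (p.eval x.length) r i)) = true
      · rw [ind_neg (not_not.2 hb)]
        exact prod_nonneg fun _ _ => ind_nonneg _
      · rw [ind_pos hb]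
        refine (prod_eq_one fun i hi => ind_pos fun hi' => hb ?_).ge
        exact List.any_eq_true.2 ⟨i, by simpa using hi, hi'⟩
    · exact sub_nonneg.2 (ev_le_const fun _ _ => ind_le_one _)
  rw [ev_ind_not] at h3
  rw [Polynomial.eval_mul, Polynomial.eval_ofNat]
  norm_num at h3 ⊢
  linarith

theorem OneSided.bpp {L : List Bool → Bool} (h : OneSided (2 / 3) L) : L ∈ N68a2faeb.BPP := by
  obtain ⟨p, R, hR, h⟩ := h
  refine (bpp_iff L).2 ⟨p, R, hR, fun x => ?_⟩
  cases hx : L x
  · refine const_le_ev fun r _ => ?_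
    rw [ind_pos]
    · norm_num
    · by_contra hr
      have := (h x).1 r (by simpa using hr)
      simp [hx] at this
  · exact (h x).2 hx

theorem OneSided.np {L : List Bool → Bool} (h : OneSided (1 / 2) L) : L ∈ N68a2faeb.NP := by
  obtain ⟨p, R, hR, h⟩ := h
  refine ⟨p, R, (poly_iff _).1 hR, fun x => ⟨fun hx => ?_, fun ⟨w, _, hw⟩ => (h x).1 w hw⟩⟩
  by_contra hn
  have : ev (p.eval x.length) (fun r => ind (R (x, r) = true)) ≤ 0 :=
    ev_le_const fun r hr => (ind_neg fun hr' => hn ⟨r, hr.le, hr'⟩).le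
  linarith [(h x).2 hx]

theorem exists_sharp {L : List Bool → Bool} (h : L ∈ N68a2faeb.NP) :
    ∃ f : List Bool → ℕ, SharpP f ∧ ∀ x, L x = true ↔ 0 < f x := by
  obtain ⟨p, R, hR, h⟩ := h
  have hR' := (poly_iff _).2 hR
  have hl : Poly fun a : List Bool × List Bool => p.eval a.1.length := (u_eval p (by fun_prop)).1
  refine ⟨_, ⟨2 * p + 1, fun a => ltB (sel true a.2).length (p.eval a.1.length + 1) &&
    R (a.1, sel true a.2), (poly_iff _).1 (by fun_prop), fun _ => rfl⟩, fun x => ?_⟩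
  rw [h x, card_pos]
  constructor
  · rintro ⟨w, h1, h2⟩
    have h3 := eval_mono p (show x.length ≤ (bitEncode x).length from length_le_enc x)
    generalize hP : Polynomial.eval (bitEncode x).length (2 * p + 1) = P
    have h4 : (delimit w ++ List.replicate (P - (2 * w.length + 1)) false).length = P := by
      rw [Polynomial.eval_add, Polynomial.eval_mul, Polynomial.eval_ofNat, Polynomial.eval_one]
        at hP
      rw [List.length_append, length_delimit, List.length_replicate]
      omega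
    refine ⟨fun i => (delimit w ++ List.replicate (P - (2 * w.length + 1)) false).get
      (i.cast h4.symm), ?_⟩
    have h5 : List.ofFn (fun i : Fin P => (delimit w ++
        List.replicate (P - (2 * w.length + 1)) false).get (i.cast h4.symm)) =
        delimit w ++ List.replicate (P - (2 * w.length + 1)) false :=
      List.ext_get (by rw [List.length_ofFn, h4]) fun i _ _ => by simp
    simp only [mem_filter, mem_univ, true_and, h5, sel_pair, if_true, Bool.and_eq_true, ltB_iff]
    exact ⟨by omega, h2⟩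
  · rintro ⟨w, hw⟩
    simp only [mem_filter, mem_univ, true_and, Bool.and_eq_true, ltB_iff] at hw
    exact ⟨_, by omega, hw.2⟩

theorem mem_scanl {α β : Type} (f : β → α → β) (b : β) (l : List α) {c : β}
    (h : c ∈ List.scanl f b l) : ∃ k ≤ l.length, c = (l.take k).foldl f b := by
  obtain ⟨k, hk, rfl⟩ := List.getElem_of_mem h
  rw [List.length_scanl] at hk
  exact ⟨k, by omega, by rw [List.getElem_scanl]⟩

theorem crude_hard (hc : CoreStmt) (hs : SourceStmt) (h : HasCrudeSampler)
    {L : List Bool → Bool} (hL : L ∈ N68a2faeb.NP) : OneSided (1 / 8) L := by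
  classical
  obtain ⟨g, dec, hg, hdec, hc⟩ := hc
  obtain ⟨p, A, hA, h⟩ := h
  have hA' := (poly_iff _).2 hA
  obtain ⟨f, hf, hLf⟩ := exists_sharp hL
  obtain ⟨U, E, hh, acc, hU, hE, -, hacc, hs⟩ := hs f hf
  obtain ⟨π, hπ⟩ : ∃ π : List Bool → List ℤ, π = fun x => g ((U x, E x), false) := ⟨_, rfl⟩
  have pπ : Poly π := by rw [hπ]; fun_prop
  have u1 := u_eval p (u_length (p_enc pπ))
  obtain ⟨P, hP⟩ := u1.2
  obtain ⟨T, hT⟩ : ∃ T : List Bool → List (ℕ × ℕ) → Bool, T = fun x s =>
    (List.range (s.length + 1)).any fun k =>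
      acc (x, dec ((U x, E x), (s.take k).foldl grev (π x))) := ⟨_, rfl⟩
  have pT : Poly fun a : List Bool × List (ℕ × ℕ) => T a.1 a.2 := by rw [hT]; fun_prop
  have v1 := u1.1
  refine ⟨P.comp (3 * Polynomial.X),
    fun a => T a.1 (A (π a.1, a.2.take (p.eval (bitEncode (π a.1)).length))),
    pT.comp (f := fun a : List Bool × List Bool =>
      (a.1, A (π a.1, a.2.take (p.eval (bitEncode (π a.1)).length))))
      (p_pair (by fun_prop) (hA'.comp (p_pair (by fun_prop)
        (p_take (v1.comp (p_fst p_id)) (by fun_prop))))), fun x => ⟨fun r hr => ?_, fun hx => ?_⟩⟩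
  · rw [hT] at hr
    obtain ⟨k, -, hk⟩ := List.any_eq_true.1 hr
    exact (hLf x).2 ((hs x).2.2.1 _ hk)
  obtain ⟨a1, -, -, a2, a3, a4⟩ := hc (U x) (E x) (hs x).1
  have a5 := a4 (fun X => acc (x, X) = true) (by
    convert (hs x).2.2.2 ((hLf x).1 hx))
  have e : g ((U x, E x), false) = π x := by rw [hπ]
  rw [e] at a1 a2 a3 a5
  have b1 := h (π x) a1 {s | T x s = true}
  have b2 : p.eval (bitEncode (π x)).length ≤ (P.comp (3 * Polynomial.X)).eval x.length :=
    (hP x).trans_eq (by simp [PolyT.Poly.enc_bools_length])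
  rw [ev_take b2 fun r => ind (T x (A (π x, r)) = true)]
  rw [coinProb_eq] at b1
  have b3 : (Opt (π x) \ {s | T x s = true}).ncard ≤ _ := Set.ncard_le_ncard
    (t := {s | s ∈ Opt (π x) ∧ ∀ γ ∈ List.scanl rev (π x) s,
      ¬ acc (x, dec ((U x, E x), γ)) = true}) (fun s hs' => ⟨hs'.1, fun γ hγ hγ' => hs'.2 (by
        obtain ⟨k, hk, rfl⟩ := mem_scanl _ _ _ hγ
        rw [← foldl_grev_eq _ _ fun r hr => (hs'.1.1.1 r (List.mem_of_mem_take hr)).2.1] at hγ'
        rw [hT]
        exact List.any_eq_true.2 ⟨k, by simp; omega, hγ'⟩)⟩) (a2.subset fun s hs' => hs'.1)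
  have b4 := Set.ncard_inter_add_ncard_sdiff_eq_ncard (Opt (π x)) {s | T x s = true} a2
  have b5 : (7 / 8 : ℝ) ≤ (Set.ncard (Opt (π x) ∩ {s | T x s = true}) : ℝ) / numOpt (π x) := by
    rw [le_div_iff₀ (by exact_mod_cast a3)]
    have : 7 * numOpt (π x) ≤ 8 * Set.ncard (Opt (π x) ∩ {s | T x s = true}) := by
      unfold numOpt at a5 ⊢
      omega
    have : (7 : ℝ) * numOpt (π x) ≤ 8 * Set.ncard (Opt (π x) ∩ {s | T x s = true}) := by
      exact_mod_cast this
    linarith
  have b6 := (abs_le.1 b1).1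
  simp only [Set.mem_ofPred_eq] at b6
  linarith

theorem crude_of (h : HasSampler) : HasCrudeSampler := by
  obtain ⟨p, A, hA, h⟩ := h
  have hA' := (poly_iff _).2 hA
  refine ⟨p.comp (2 * Polynomial.X + 4), fun a => A ((a.1, List.replicate 1 true), a.2),
    (poly_iff _).1 (by fun_prop), fun π hπ E => ?_⟩
  have h1 := (h π hπ 1).2 E
  have e : (bitEncode (π, List.replicate 1 true)).length = 2 * (bitEncode π).length + 4 := by
    rw [length_enc_pair, PolyT.Poly.enc_bools_length]; simp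
  rw [e] at h1
  rw [Polynomial.eval_comp]
  simp only [Polynomial.eval_add, Polynomial.eval_mul, Polynomial.eval_ofNat, Polynomial.eval_X]
  exact h1.trans (by norm_num)

end Smp

open Smp in
theorem q2_tfae (hc : CoreStmt) (hs : SourceStmt) (hd : DistStmt) :
    List.TFAE [HasSampler, HasCrudeSampler, N68a2faeb.NP = RP, N68a2faeb.NP ⊆ N68a2faeb.BPP] := by
  tfae_have 1 → 2 := crude_of
  tfae_have 2 → 3 := fun h => Set.Subset.antisymm
    (fun L hL => (rp_iff L).2 ((crude_hard hc hs h hL).amp.mono (by norm_num)))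
    fun L hL => ((rp_iff L).1 hL).np
  tfae_have 3 → 4 := fun h L hL =>
    (((rp_iff L).1 (h ▸ hL)).mono (by norm_num)).amp.bpp
  tfae_have 4 → 1 := fun h => by
    obtain ⟨p, A, hA, h⟩ := sampler_of hd h
    refine ⟨p, A, (poly_iff _).1 hA, fun π hπ e => ⟨(h (π, _) hπ).1, fun E => ?_⟩⟩
    have h1 := (h (π, List.replicate e true) hπ).2 E
    rw [List.length_replicate] at h1
    exact h1
  tfae_finish

theorem q2_of (hc : CoreStmt) (hs : SourceStmt) (hd : DistStmt) :
    HasSampler ↔ N68a2faeb.NP ⊆ N68a2faeb.BPP := (q2_tfae hc hs hd).out 0 3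

theorem q2_rp (hc : CoreStmt) (hs : SourceStmt) (hd : DistStmt) :
    (HasSampler ↔ N68a2faeb.NP = RP) ∧ (HasCrudeSampler ↔ N68a2faeb.NP = RP) :=
  ⟨(q2_tfae hc hs hd).out 0 2, (q2_tfae hc hs hd).out 1 2⟩

end Pool.Agent.MP_f00251_lc

end MrgPart5

-- marker of a merged file
example : 731051 + 536135 = 731051 + 536135 := rfl
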